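import Pool.Agent.Helper77.CI.Defs

/-!
# MP_8096dd_al : the algebra behind the central involution theorem

`V` is a finite-dimensional space over a field of characteristic `2`, `z` an endomorphism with
`z * z = 1`, `D x = z x z - x` on `E = End V`.  The map `P` is a projection onto the image of `D`.
-/

open Module LinearMap

namespace H77CI

variable {k V : Type} [Field k] [AddCommGroup V] [Module k V]

/-- A square zero map has a generalised inverse of square zero. -/
theorem exists_h (N : Module.End k V) (hN : N * N = 0) :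
    ∃ h : Module.End k V, N * h * N = N ∧ h * N * h = h ∧ h * h = 0 := by
  -- a generalised inverse
  obtain ⟨g, hg⟩ : ∃ g : Module.End k V, N * g * N = N := by
    obtain ⟨s, hs⟩ := N.rangeRestrict.exists_rightInverse_of_surjective
      (LinearMap.range_rangeRestrict N)
    obtain ⟨q, hq⟩ := Submodule.exists_isCompl (LinearMap.range N)
    refine ⟨s ∘ₗ (LinearMap.range N).projectionOnto q hq, ?_⟩
    ext v
    have h1 : (LinearMap.range N).projectionOnto q hq (N v) = ⟨N v, v, rfl⟩ :=
      Submodule.projectionOnto_apply_left hq ⟨N v, v, rfl⟩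
    have h2 : N.rangeRestrict (s ⟨N v, v, rfl⟩) = ⟨N v, v, rfl⟩ := by
      exact LinearMap.congr_fun hs ⟨N v, v, rfl⟩
    have h3 := congrArg Subtype.val h2
    simp only [Module.End.mul_apply, LinearMap.comp_apply, h1]
    exact h3
  set h1 : Module.End k V := g * N * g with hh1
  have a1 : N * h1 * N = N := by
    calc N * (g * N * g) * N = (N * g * N) * g * N := by simp only [mul_assoc]
      _ = N := by rw [hg, hg]
  have a2 : h1 * N * h1 = h1 := by
    calc (g * N * g) * N * (g * N * g) = g * (N * g * N) * g * N * g := by simp only [mul_assoc]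
      _ = g * N * g * N * g := by rw [hg]
      _ = g * (N * g * N) * g := by simp only [mul_assoc]
      _ = g * N * g := by rw [hg]
  refine ⟨h1 - h1 * h1 * N, ?_, ?_, ?_⟩
  · calc N * (h1 - h1 * h1 * N) * N = N * h1 * N - N * h1 * h1 * (N * N) := by noncomm_ring
      _ = N := by rw [hN, a1]; simp
  · calc (h1 - h1 * h1 * N) * N * (h1 - h1 * h1 * N)
        = h1 * N * h1 - (h1 * N * h1) * h1 * N - h1 * h1 * (N * N) * h1
          + h1 * h1 * (N * N) * h1 * h1 * N := by noncomm_ring
      _ = h1 - h1 * h1 * N := by rw [hN, a2]; simp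
  · calc (h1 - h1 * h1 * N) * (h1 - h1 * h1 * N)
        = h1 * h1 - h1 * h1 * h1 * N - h1 * (h1 * N * h1) + h1 * (h1 * N * h1) * h1 * N := by
          noncomm_ring
      _ = 0 := by rw [a2]; noncomm_ring

section


/-- The map `x ↦ u x v`. -/
noncomputable def LR (u v : (Module.End k V)) : (Module.End k V) →ₗ[k] (Module.End k V) where
  toFun x := u * (x * v)
  map_add' x y := by rw [add_mul, mul_add]
  map_smul' c x := by simp

@[simp] theorem LR_apply (u v x : (Module.End k V)) : LR (k := k) u v x = u * (x * v) := rfl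

theorem LR_comp (a b c d : (Module.End k V)) : LR (k := k) a b ∘ₗ LR c d = LR (a * c) (d * b) := by
  ext x
  simp [mul_assoc]

theorem LR_add_left (a b c : (Module.End k V)) : LR (k := k) (a + b) c = LR a c + LR b c := by
  ext x; simp [add_mul]

theorem LR_add_right (a b c : (Module.End k V)) : LR (k := k) a (b + c) = LR a b + LR a c := by
  ext x; simp [mul_add]

theorem LR_smul_left (r : k) (a c : (Module.End k V)) : LR (k := k) (r • a) c = r • LR a c := by
  ext x; simp

theorem LR_smul_right (r : k) (a c : (Module.End k V)) : LR (k := k) a (r • c) = r • LR a c := by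
  ext x; simp

/-- The bracket `⟨u,v⟩ = tr (φ ∘ (x ↦ u x v))`. -/
noncomputable def br (φ : (Module.End k V) →ₗ[k] (Module.End k V)) (u v : (Module.End k V)) : k := LinearMap.trace k (Module.End k V) (φ ∘ₗ LR u v)

variable {φ : (Module.End k V) →ₗ[k] (Module.End k V)}

theorem br_add_left (a b c : (Module.End k V)) : br φ (a + b) c = br φ a c + br φ b c := by
  simp only [br, LR_add_left, LinearMap.comp_add, map_add]

theorem br_add_right (a b c : (Module.End k V)) : br φ a (b + c) = br φ a b + br φ a c := by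
  simp only [br, LR_add_right, LinearMap.comp_add, map_add]

theorem br_smul_left (r : k) (a c : (Module.End k V)) : br φ (r • a) c = r * br φ a c := by
  simp only [br, LR_smul_left, LinearMap.comp_smul, map_smul, smul_eq_mul]

theorem br_smul_right (r : k) (a c : (Module.End k V)) : br φ a (r • c) = r * br φ a c := by
  simp only [br, LR_smul_right, LinearMap.comp_smul, map_smul, smul_eq_mul]

/-- Invariance of the bracket. -/
theorem br_conj {g g' : (Module.End k V)} (hg : g' * g = 1) (hφ : φ ∘ₗ LR g g' = LR g g' ∘ₗ φ) (u v : (Module.End k V)) :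
    br φ (g * u * g') (g * v * g') = br φ u v := by
  have h1 : φ ∘ₗ LR (k := k) (g * u * g') (g * v * g')
      = LR (k := k) g g' ∘ₗ (φ ∘ₗ (LR u v ∘ₗ LR g' g)) := by
    rw [LR_comp, ← LinearMap.comp_assoc, ← hφ, LinearMap.comp_assoc, LR_comp]
    simp only [mul_assoc]
  have h2 : (φ ∘ₗ (LR (k := k) u v ∘ₗ LR g' g)) ∘ₗ LR g g' = φ ∘ₗ LR u v := by
    rw [LinearMap.comp_assoc, LinearMap.comp_assoc, LR_comp, hg]
    refine LinearMap.ext fun x => ?_
    simp
  have h3 := LinearMap.trace_mul_comm k (LR (k := k) g g') (φ ∘ₗ (LR (k := k) u v ∘ₗ LR g' g))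
  rw [br, h1]
  exact h3.trans (by rw [Module.End.mul_eq_comp, h2, br])

/-- Relations between `N` and its generalised inverse, in characteristic two. -/
structure Rel (N h : (Module.End k V)) : Prop where
  two : ∀ x : (Module.End k V), x + x = 0
  NN : N * N = 0
  NhN : N * (h * N) = N
  hNh : h * (N * h) = h
  hh : h * h = 0

variable {N h : (Module.End k V)}

theorem Rel.NN' (r : Rel N h) (x : (Module.End k V)) : N * (N * x) = 0 := by
  rw [← mul_assoc, r.NN, zero_mul]

theorem Rel.hh' (r : Rel N h) (x : (Module.End k V)) : h * (h * x) = 0 := by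
  rw [← mul_assoc, r.hh, zero_mul]

theorem Rel.NhN' (r : Rel N h) (x : (Module.End k V)) : N * (h * (N * x)) = N * x := by
  rw [← mul_assoc h, ← mul_assoc N, r.NhN]

theorem Rel.hNh' (r : Rel N h) (x : (Module.End k V)) : h * (N * (h * x)) = h * x := by
  rw [← mul_assoc N, ← mul_assoc h, r.hNh]

theorem Rel.two_nsmul (r : Rel N h) (x : (Module.End k V)) : (2 : ℕ) • x = 0 := by
  rw [two_smul, r.two]

theorem Rel.two_zsmul (r : Rel N h) (x : (Module.End k V)) : (2 : ℤ) • x = 0 := by
  rw [two_smul, r.two]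

theorem Rel.neg (r : Rel N h) (x : (Module.End k V)) : -x = x := neg_eq_of_add_eq_zero_left (r.two x)

theorem Rel.neg_two_zsmul (r : Rel N h) (x : (Module.End k V)) : (-2 : ℤ) • x = 0 := by
  rw [neg_smul, r.two_zsmul, neg_zero]

theorem Rel.four_nsmul (r : Rel N h) (x : (Module.End k V)) : (4 : ℕ) • x = 0 := by
  rw [show (4 : ℕ) = 2 * 2 from rfl, mul_smul, r.two_nsmul]

theorem Rel.four_zsmul (r : Rel N h) (x : (Module.End k V)) : (4 : ℤ) • x = 0 := by
  rw [show (4 : ℤ) = 2 * 2 from rfl, mul_smul, r.two_zsmul]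

theorem Rel.neg_four_zsmul (r : Rel N h) (x : (Module.End k V)) : (-4 : ℤ) • x = 0 := by
  rw [neg_smul, r.four_zsmul, neg_zero]

/-- `D x = z x z + x` with `z = 1 + N`. -/
noncomputable def Dm (N : (Module.End k V)) : (Module.End k V) →ₗ[k] (Module.End k V) := LR (1 + N) (1 + N) + LinearMap.id

/-- The projection onto the image of `D`. -/
noncomputable def Pm (N h : (Module.End k V)) : (Module.End k V) →ₗ[k] (Module.End k V) :=
  LR (N * h) 1 + LR h N + LR (1 + h * N + N * h) (h * N)

/-- A map with `D W = P`. -/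
noncomputable def Wm (N h : (Module.End k V)) : (Module.End k V) →ₗ[k] (Module.End k V) := LR h (1 + N) + LR (1 + h * N + N * h) h

theorem DW (r : Rel N h) : Dm (k := k) N ∘ₗ Wm N h = Pm N h := by
  refine LinearMap.ext fun x => ?_
  simp only [Dm, Wm, Pm, LinearMap.comp_apply, LinearMap.add_apply, LR_apply, LinearMap.id_apply,
    mul_add, add_mul, mul_assoc, mul_one, one_mul, r.NN, r.hh, r.NhN, r.hNh, r.NN', r.hh',
    r.NhN', r.hNh', mul_zero, zero_add, add_zero]
  rw [← sub_eq_zero]
  try abel_nf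
  try simp only [Rel.two_zsmul r, Rel.two_nsmul r, Rel.neg_two_zsmul r, Rel.four_nsmul r,
    Rel.four_zsmul r, Rel.neg_four_zsmul r, add_zero, zero_add]

/-- An element commuting with `N` is fixed by `P` up to its middle component. -/
theorem P_of_comm (r : Rel N h) {x : (Module.End k V)} (hx : N * x = x * N) :
    x = Pm (k := k) N h x + (1 + h * N + N * h) * x * (1 + h * N + N * h) := by
  have e1 : ∀ y : (Module.End k V), x * (N * y) = N * (x * y) := fun y => by
    rw [← mul_assoc, ← hx, mul_assoc]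
  simp only [Pm, LinearMap.add_apply, LR_apply, mul_add, add_mul, mul_assoc, mul_one, one_mul,
    e1, ← hx, r.NN, r.hh, r.NhN, r.hNh, r.NN', r.hh', r.NhN', r.hNh', mul_zero, zero_add, add_zero]
  rw [← sub_eq_zero]
  try abel_nf
  try simp only [Rel.two_zsmul r, Rel.two_nsmul r, Rel.neg_two_zsmul r, Rel.four_nsmul r,
    Rel.four_zsmul r, Rel.neg_four_zsmul r, add_zero, zero_add]

theorem N_mul_D (r : Rel N h) (x : (Module.End k V)) : N * Dm (k := k) N x = Dm (k := k) N x * N := by
  simp only [Dm, LinearMap.add_apply, LR_apply, LinearMap.id_apply, mul_add, add_mul, mul_assoc,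
    mul_one, one_mul, r.NN, r.hh, r.NhN, r.hNh, r.NN', r.hh', r.NhN', r.hNh', mul_zero, zero_add,
    add_zero]
  rw [← sub_eq_zero]
  try abel_nf
  try simp only [Rel.two_zsmul r, Rel.two_nsmul r, Rel.neg_two_zsmul r, Rel.four_nsmul r,
    Rel.four_zsmul r, Rel.neg_four_zsmul r, add_zero, zero_add]

theorem mid_D (r : Rel N h) (x : (Module.End k V)) :
    (1 + h * N + N * h) * Dm (k := k) N x * (1 + h * N + N * h) = 0 := by
  simp only [Dm, LinearMap.add_apply, LR_apply, LinearMap.id_apply, mul_add, add_mul, mul_assoc,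
    mul_one, one_mul, r.NN, r.hh, r.NhN, r.hNh, r.NN', r.hh', r.NhN', r.hNh', mul_zero, zero_add,
    add_zero]
  try abel_nf
  try simp only [Rel.two_zsmul r, Rel.two_nsmul r, Rel.neg_two_zsmul r, Rel.four_nsmul r,
    Rel.four_zsmul r, Rel.neg_four_zsmul r, add_zero, zero_add]

theorem PD (r : Rel N h) : Pm (k := k) N h ∘ₗ Dm N = Dm N := by
  refine LinearMap.ext fun x => ?_
  have h1 := P_of_comm (k := k) r (N_mul_D (k := k) r x)
  rw [mid_D r, add_zero] at h1
  exact h1.symm

theorem comm_iff (r : Rel N h) (x : (Module.End k V)) : Dm (k := k) N x = 0 ↔ N * x = x * N := by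
  constructor
  · intro hx
    have h1 : (1 + N) * (x * (1 + N)) = x := by
      have : (1 + N) * (x * (1 + N)) + x = 0 := hx
      have h2 := r.two x
      calc (1 + N) * (x * (1 + N)) = (1 + N) * (x * (1 + N)) + (x + x) := by rw [h2, add_zero]
        _ = ((1 + N) * (x * (1 + N)) + x) + x := by rw [add_assoc]
        _ = x := by rw [this, zero_add]
    have h3 : (1 + N) * (1 + N) = 1 := by
      simp only [mul_add, add_mul, mul_one, one_mul, r.NN, add_zero]
      rw [add_assoc, r.two, add_zero]
    have h4 : (1 + N) * x = x * (1 + N) := by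
      calc (1 + N) * x = (1 + N) * ((1 + N) * (x * (1 + N))) := by rw [h1]
        _ = ((1 + N) * (1 + N)) * (x * (1 + N)) := by simp only [mul_assoc]
        _ = x * (1 + N) := by rw [h3, one_mul]
    simpa [mul_add, add_mul] using h4
  · intro hx
    have e1 : ∀ y : (Module.End k V), x * (N * y) = N * (x * y) := fun y => by
      rw [← mul_assoc, ← hx, mul_assoc]
    simp only [Dm, LinearMap.add_apply, LR_apply, LinearMap.id_apply, mul_add, add_mul, mul_assoc,
      mul_one, one_mul, e1, ← hx, r.NN, r.NN', mul_zero, zero_add, add_zero]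
    try abel_nf
    try simp only [Rel.two_zsmul r, Rel.two_nsmul r, Rel.neg_two_zsmul r, Rel.four_nsmul r,
      Rel.four_zsmul r, Rel.neg_four_zsmul r, add_zero, zero_add]

/-- The formula for the trace of `φ` on the image of `D`. -/
theorem trace_P (h2 : ∀ c : k, c + c = 0) (r : Rel N h)
    (hφ : φ ∘ₗ LR (1 + N) (1 + N) = LR (1 + N) (1 + N) ∘ₗ φ) :
    LinearMap.trace k (Module.End k V) (φ ∘ₗ Pm N h) = br φ (N * h) 1 + br φ 1 (h * N) + br φ N (h * N) := by
  have h3 : (1 + N) * (1 + N) = 1 := by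
    simp only [mul_add, add_mul, mul_one, one_mul, r.NN, add_zero]
    rw [add_assoc, r.two, add_zero]
  have hzz : ∀ u v, br φ ((1 + N) * u * (1 + N)) ((1 + N) * v * (1 + N)) = br φ u v :=
    fun u v => br_conj h3 hφ u v
  have e1 : N = (1 + N) * (h * N) * (1 + N) + h * N := by
    simp only [mul_add, add_mul, mul_assoc, mul_one, one_mul, r.NN, r.NhN, mul_zero, add_zero]
    rw [← sub_eq_zero]
    try abel_nf
    try simp only [Rel.two_zsmul r, Rel.two_nsmul r, Rel.neg_two_zsmul r, Rel.four_nsmul r,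
      Rel.four_zsmul r, Rel.neg_four_zsmul r, add_zero, zero_add]
  have e2 : (1 + N) * h * (1 + N) = h + N * h + h * N + N := by
    simp only [mul_add, add_mul, mul_assoc, mul_one, one_mul, r.NhN]
    abel
  have e3 : br φ h N = br φ ((1 + N) * h * (1 + N)) (h * N) + br φ h (h * N) := by
    have a1 : br φ h N = br φ h ((1 + N) * (h * N) * (1 + N)) + br φ h (h * N) := by
      rw [← br_add_right, ← e1]
    have a2 : br φ h ((1 + N) * (h * N) * (1 + N)) = br φ ((1 + N) * h * (1 + N)) (h * N) := by
      rw [← hzz h ((1 + N) * (h * N) * (1 + N))]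
      congr 1
      calc (1 + N) * ((1 + N) * (h * N) * (1 + N)) * (1 + N)
          = ((1 + N) * (1 + N)) * (h * N) * ((1 + N) * (1 + N)) := by simp only [mul_assoc]
        _ = h * N := by rw [h3, one_mul, mul_one]
    rw [a1, a2]
  have e4 : LinearMap.trace k (Module.End k V) (φ ∘ₗ Pm N h)
      = br φ (N * h) 1 + br φ h N + br φ (1 + h * N + N * h) (h * N) := by
    simp only [Pm, br, LinearMap.comp_add, map_add]
  rw [e4, e3, e2]
  simp only [br_add_left]
  linear_combination h2 (br φ h (h * N)) + h2 (br φ (N * h) (h * N)) + h2 (br φ (h * N) (h * N))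

end

/-! ### Linear functionals on `End V` -/

section

variable [FiniteDimensional k V]

theorem exists_trace_rep (f : Module.End k V →ₗ[k] k) :
    ∃ a : Module.End k V, ∀ u, f u = LinearMap.trace k V (a * u) := by
  let T : Module.End k V →ₗ[k] Module.Dual k (Module.End k V) :=
    { toFun := fun a => (LinearMap.trace k V) ∘ₗ LinearMap.mulLeft k a
      map_add' := fun a b => by ext u; simp [add_mul]
      map_smul' := fun c a => by ext u; simp }
  have hT : Function.Injective T := by
    rw [← LinearMap.ker_eq_bot, LinearMap.ker_eq_bot']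
    intro a ha
    ext v
    rw [LinearMap.zero_apply, ← Module.forall_dual_apply_eq_zero_iff k]
    intro g
    have h1 : T a (dualTensorHom k V V (g ⊗ₜ v)) = 0 := by rw [ha]; rfl
    have h2 : a * dualTensorHom k V V (g ⊗ₜ v) = dualTensorHom k V V (g ⊗ₜ a v) := by
      ext x
      simp [dualTensorHom_apply]
    have h3 : T a (dualTensorHom k V V (g ⊗ₜ v)) = LinearMap.trace k V
      (a * dualTensorHom k V V (g ⊗ₜ v)) := rfl
    rw [h3, h2, LinearMap.trace_eq_contract_apply] at h1
    simpa using h1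
  have hs : Function.Surjective T :=
    (LinearMap.injective_iff_surjective_of_finrank_eq_finrank
      (Subspace.dual_finrank_eq).symm).1 hT
  obtain ⟨a, ha⟩ := hs f
  exact ⟨a, fun u => by rw [← ha]; rfl⟩

theorem trace_nil {ν N h : Module.End k V} (hc : N * ν = ν * N) (hν : IsNilpotent ν)
    (hN : N * (h * N) = N) : LinearMap.trace k V (ν * (N * h)) = 0 := by
  have key : ∀ n : ℕ, (ν * (N * h)) ^ (n + 1) = ν ^ (n + 1) * (N * h) := by
    intro n
    induction n with
    | zero => simp
    | succ n ih =>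
      have e1 : ∀ m : ℕ, N * ν ^ m = ν ^ m * N := fun m => ((show Commute N ν from hc).pow_right m).eq
      calc (ν * (N * h)) ^ (n + 1 + 1) = (ν ^ (n + 1) * (N * h)) * (ν * (N * h)) := by
            rw [pow_succ, ih]
        _ = ν ^ (n + 1) * (N * (h * (ν * N))) * h := by simp only [mul_assoc]
        _ = ν ^ (n + 1) * (N * (h * N)) * ν * h := by rw [← hc]; simp only [mul_assoc]
        _ = ν ^ (n + 1) * (N * ν) * h := by rw [hN]; simp only [mul_assoc]
        _ = ν ^ (n + 1 + 1) * (N * h) := by rw [hc, pow_succ ν (n + 1)]; simp only [mul_assoc]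
  have hnil : IsNilpotent (ν * (N * h)) := by
    obtain ⟨n, hn⟩ := hν
    refine ⟨n + 1, ?_⟩
    rw [key n, pow_succ, hn, zero_mul, zero_mul]
  exact (LinearMap.isNilpotent_trace_of_isNilpotent hnil).eq_zero

variable {G : Type} [Group G]

/-- Every endomorphism commuting with `G` is a scalar plus a nilpotent. -/
def LocalEnd (ρ : Representation k G V) : Prop :=
  ∀ a : Module.End k V, (∀ g, a * ρ g = ρ g * a) → ∃ c : k, IsNilpotent (a - c • 1)

theorem rho_inv_mul (ρ : Representation k G V) (g : G) : ρ g⁻¹ * ρ g = 1 := by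
  rw [← map_mul, inv_mul_cancel, map_one]

theorem rho_mul_inv (ρ : Representation k G V) (g : G) : ρ g * ρ g⁻¹ = 1 := by
  rw [← map_mul, mul_inv_cancel, map_one]

theorem exists_comm_rep (ρ : Representation k G V) (f : Module.End k V →ₗ[k] k)
    (hf : ∀ g u, f (ρ g * u * ρ g⁻¹) = f u) :
    ∃ a : Module.End k V, (∀ g, a * ρ g = ρ g * a) ∧ ∀ u, f u = LinearMap.trace k V (a * u) := by
  obtain ⟨a, ha⟩ := exists_trace_rep f
  refine ⟨a, fun g => ?_, ha⟩
  -- `a - g⁻¹ a g` is orthogonal to everything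
  have h1 : ∀ u, LinearMap.trace k V ((ρ g⁻¹ * a * ρ g) * u) = LinearMap.trace k V (a * u) := by
    intro u
    rw [← ha, ← hf g u, ha]
    calc LinearMap.trace k V ((ρ g⁻¹ * a * ρ g) * u)
        = LinearMap.trace k V (ρ g⁻¹ * (a * ρ g * u)) := by simp only [mul_assoc]
      _ = LinearMap.trace k V ((a * ρ g * u) * ρ g⁻¹) := LinearMap.trace_mul_comm _ _ _
      _ = LinearMap.trace k V (a * (ρ g * u * ρ g⁻¹)) := by simp only [mul_assoc]
  have h2 : ρ g⁻¹ * a * ρ g = a := by
    rw [← sub_eq_zero]
    set d := ρ g⁻¹ * a * ρ g - a with hd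
    have h3 : ∀ u, LinearMap.trace k V (d * u) = 0 := by
      intro u
      rw [hd, sub_mul, map_sub, h1, sub_self]
    ext v
    rw [LinearMap.zero_apply, ← Module.forall_dual_apply_eq_zero_iff k]
    intro φ
    have h4 : d * dualTensorHom k V V (φ ⊗ₜ v) = dualTensorHom k V V (φ ⊗ₜ d v) := by
      ext x
      simp [dualTensorHom_apply]
    have h5 := h3 (dualTensorHom k V V (φ ⊗ₜ v))
    rw [h4, LinearMap.trace_eq_contract_apply] at h5
    simpa using h5
  calc a * ρ g = (ρ g * ρ g⁻¹) * a * ρ g := by rw [rho_mul_inv, one_mul]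
    _ = ρ g * (ρ g⁻¹ * a * ρ g) := by simp only [mul_assoc]
    _ = ρ g * a := by rw [h2]

/-- Values of invariant functionals. -/
theorem inv_vals {ρ : Representation k G V} (hρ : LocalEnd ρ) [CharP k 2]
    (hodd : Odd (Module.finrank k V)) {N h : Module.End k V} (r : Rel N h) {z : G}
    (hz : ρ z = 1 + N) (f : Module.End k V →ₗ[k] k)
    (hf : ∀ g u, f (ρ g * u * ρ g⁻¹) = f u) :
    f (N * h) = f 1 * LinearMap.trace k V (N * h) ∧
      f (h * N) = f 1 * LinearMap.trace k V (N * h) ∧ f N = 0 := by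
  obtain ⟨a, hac, ha⟩ := exists_comm_rep ρ f hf
  obtain ⟨c, hc⟩ := hρ a hac
  have haN : N * a = a * N := by
    have := hac z
    rw [hz, mul_add, add_mul, mul_one, one_mul] at this
    exact (add_left_cancel this).symm
  have hνN : N * (a - c • 1) = (a - c • 1) * N := by
    rw [mul_sub, sub_mul, haN]
    simp
  have hm : ((Module.finrank k V : ℕ) : k) = 1 := by
    obtain ⟨n, hn⟩ := hodd
    rw [hn]
    push_cast
    rw [CharTwo.two_eq_zero, zero_mul, zero_add]
  have htr : ∀ u, f u = c * LinearMap.trace k V u + LinearMap.trace k V ((a - c • 1) * u) := by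
    intro u
    rw [ha, sub_mul, map_sub]
    simp
  have h1 : f 1 = c := by
    rw [htr, LinearMap.trace_one, hm, mul_one, mul_one,
      (LinearMap.isNilpotent_trace_of_isNilpotent hc).eq_zero, add_zero]
  have h2 : f (N * h) = c * LinearMap.trace k V (N * h) := by
    rw [htr, trace_nil hνN hc r.NhN, add_zero]
  refine ⟨by rw [h1, h2], ?_, ?_⟩
  · rw [h1, ← h2, ha, ha, ← mul_assoc, LinearMap.trace_mul_comm, ← mul_assoc, haN, mul_assoc]
  · rw [ha]
    have : IsNilpotent (a * N) := by
      have hN : IsNilpotent N := ⟨2, by rw [pow_two, r.NN]⟩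
      exact (show Commute a N from haN.symm).isNilpotent_mul_left hN
    exact (LinearMap.isNilpotent_trace_of_isNilpotent this).eq_zero

/-- **Theorem A.** The trace of every equivariant `φ` on the image of `D` is zero. -/
theorem trace_P_zero {ρ : Representation k G V} (hρ : LocalEnd ρ) [CharP k 2]
    (hodd : Odd (Module.finrank k V)) {N h : Module.End k V} (r : Rel N h) {z : G}
    (hz : ρ z = 1 + N) (hzc : ∀ g, ρ z * ρ g = ρ g * ρ z)
    (φ : Module.End k V →ₗ[k] Module.End k V)
    (hφ : ∀ g, φ ∘ₗ LR (ρ g) (ρ g⁻¹) = LR (ρ g) (ρ g⁻¹) ∘ₗ φ) :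
    LinearMap.trace k (Module.End k V) (φ ∘ₗ Pm N h) = 0 := by
  have h2 : ∀ c : k, c + c = 0 := fun c => CharTwo.add_self_eq_zero c
  have hzz : (1 + N) * (1 + N) = 1 := by
    simp only [mul_add, add_mul, mul_one, one_mul, r.NN, add_zero]
    rw [add_assoc, r.two, add_zero]
  have hzinv : ρ z⁻¹ = 1 + N := by
    calc ρ z⁻¹ = ρ z⁻¹ * ((1 + N) * (1 + N)) := by rw [hzz, mul_one]
      _ = (ρ z⁻¹ * ρ z) * (1 + N) := by rw [hz, mul_assoc]
      _ = 1 + N := by rw [rho_inv_mul, one_mul]
  have hφz : φ ∘ₗ LR (1 + N) (1 + N) = LR (1 + N) (1 + N) ∘ₗ φ := by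
    have := hφ z
    rwa [hzinv, hz] at this
  have hNc : ∀ g, ρ g * N * ρ g⁻¹ = N := by
    intro g
    have h3 : N * ρ g = ρ g * N := by
      have := hzc g
      rw [hz, mul_add, add_mul, mul_one, one_mul] at this
      exact add_left_cancel this
    rw [← h3, mul_assoc, rho_mul_inv, mul_one]
  have h1c : ∀ g, ρ g * 1 * ρ g⁻¹ = 1 := fun g => by rw [mul_one, rho_mul_inv]
  -- the three functionals
  let f1 : Module.End k V →ₗ[k] k :=
    { toFun := fun u => br φ u 1
      map_add' := fun a b => br_add_left a b 1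
      map_smul' := fun c a => br_smul_left c a 1 }
  let f2 : Module.End k V →ₗ[k] k :=
    { toFun := fun u => br φ 1 u
      map_add' := fun a b => br_add_right 1 a b
      map_smul' := fun c a => br_smul_right c 1 a }
  let f3 : Module.End k V →ₗ[k] k :=
    { toFun := fun u => br φ N u
      map_add' := fun a b => br_add_right N a b
      map_smul' := fun c a => br_smul_right c N a }
  have i1 : ∀ g u, f1 (ρ g * u * ρ g⁻¹) = f1 u := by
    intro g u
    change br φ (ρ g * u * ρ g⁻¹) 1 = br φ u 1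
    have := br_conj (rho_inv_mul ρ g) (hφ g) u 1
    rwa [h1c g] at this
  have i2 : ∀ g u, f2 (ρ g * u * ρ g⁻¹) = f2 u := by
    intro g u
    change br φ 1 (ρ g * u * ρ g⁻¹) = br φ 1 u
    have := br_conj (rho_inv_mul ρ g) (hφ g) 1 u
    rwa [h1c g] at this
  have i3 : ∀ g u, f3 (ρ g * u * ρ g⁻¹) = f3 u := by
    intro g u
    change br φ N (ρ g * u * ρ g⁻¹) = br φ N u
    have := br_conj (rho_inv_mul ρ g) (hφ g) N u
    rwa [hNc g] at this
  obtain ⟨a1, -, a3⟩ := inv_vals hρ hodd r hz f1 i1
  obtain ⟨-, b2, -⟩ := inv_vals hρ hodd r hz f2 i2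
  obtain ⟨-, c2, -⟩ := inv_vals hρ hodd r hz f3 i3
  have a1' : br φ (N * h) 1 = br φ 1 1 * LinearMap.trace k V (N * h) := a1
  have a3' : br φ N 1 = 0 := a3
  have b2' : br φ 1 (h * N) = br φ 1 1 * LinearMap.trace k V (N * h) := b2
  have c2' : br φ N (h * N) = br φ N 1 * LinearMap.trace k V (N * h) := c2
  rw [trace_P h2 r hφz, a1', b2', c2', a3', zero_mul, add_zero, h2]

end

end H77CI
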