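import Pool.Agent.Helper77.CI.Final

/-!
# MP_8096dd_al : the theorem on central involutions
-/

open Module LinearMap
open scoped TensorProduct

namespace H77CI

variable {k V : Type} [Field k] [AddCommGroup V] [Module k V]
variable {G : Type} [Group G]

/-- The trace of every equivariant endomorphism of `V ⊗ V*` on the image of `z - 1` vanishes. -/
theorem trace_range_zero [IsAlgClosed k] [CharP k 2] [FiniteDimensional k V]
    {ρ : Representation k G V} (hodd : Odd (Module.finrank k V)) (hind : Indec ρ) {z : G}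
    (hzc : ∀ g, ρ z * ρ g = ρ g * ρ z) (hzz : ρ z * ρ z = 1)
    (φ : V ⊗[k] Module.Dual k V →ₗ[k] V ⊗[k] Module.Dual k V)
    (hφ : ∀ g x, φ (tw ρ g x) = tw ρ g (φ x))
    (hR : ∀ x ∈ LinearMap.range (tw ρ z - 1), φ x ∈ LinearMap.range (tw ρ z - 1)) :
    LinearMap.trace k _ (φ.restrict hR) = 0 := by
  have htwo : ∀ x : Module.End k V, x + x = 0 := by
    intro x
    rw [← two_smul k x, CharTwo.two_eq_zero, zero_smul]
  have hNN : (ρ z - 1) * (ρ z - 1) = 0 := by
    have : (ρ z - 1) * (ρ z - 1) = (1 - ρ z) + (1 - ρ z) := by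
      rw [sub_mul, mul_sub, hzz]
      simp only [mul_one, one_mul]
      abel
    rw [this]
    exact htwo _
  obtain ⟨h, h1, h3, h4⟩ := exists_h (ρ z - 1) hNN
  have r : Rel (ρ z - 1) h := ⟨htwo, hNN, by rw [← mul_assoc]; exact h1,
    by rw [← mul_assoc]; exact h3, h4⟩
  set N := ρ z - 1 with hN
  have hz : ρ z = 1 + N := by rw [hN]; abel
  have hzinv : ρ z⁻¹ = 1 + N := by
    calc ρ z⁻¹ = ρ z⁻¹ * (ρ z * ρ z) := by rw [hzz, mul_one]
      _ = (ρ z⁻¹ * ρ z) * ρ z := by rw [mul_assoc]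
      _ = 1 + N := by rw [rho_inv_mul, one_mul, hz]
  -- the transport of `D`
  have hD : ∀ t : V ⊗[k] Module.Dual k V, eqv ((tw ρ z - 1) t) = Dm (k := k) N (eqv t) := by
    intro t
    have e1 : (tw ρ z - 1) t = tw ρ z t - t := rfl
    rw [e1, map_sub, eqv_equiv, hzinv, hz, mul_assoc]
    change _ = (1 + N) * (eqv t * (1 + N)) + eqv t
    rw [sub_eq_add_neg, r.neg]
  set φ' : Module.End k V →ₗ[k] Module.End k V := (eqv (k := k) (V := V)).conj φ with hφ'
  have hφ'a : ∀ x, φ' x = eqv (φ (eqv.symm x)) := fun x => rfl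
  have hφ'c : ∀ g, φ' ∘ₗ LR (ρ g) (ρ g⁻¹) = LR (ρ g) (ρ g⁻¹) ∘ₗ φ' := by
    intro g
    refine LinearMap.ext fun x => ?_
    have e1 : eqv.symm (LR (k := k) (ρ g) (ρ g⁻¹) x) = tw ρ g (eqv.symm x) := by
      apply (eqv (k := k) (V := V)).injective
      rw [LinearEquiv.apply_symm_apply, eqv_equiv, LinearEquiv.apply_symm_apply, LR_apply,
        mul_assoc]
    rw [LinearMap.comp_apply, LinearMap.comp_apply, hφ'a, e1, hφ, hφ'a, eqv_equiv, LR_apply,
      mul_assoc]
  have key := trace_P_zero (localEnd_of_indec hodd hind) hodd r hz hzc φ' hφ'c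
  -- the projection on `V ⊗ V*`
  set P : V ⊗[k] Module.Dual k V →ₗ[k] V ⊗[k] Module.Dual k V :=
    (eqv (k := k) (V := V)).symm.conj (Pm N h) with hP
  have hPa : ∀ t, P t = eqv.symm (Pm (k := k) N h (eqv t)) := fun t => rfl
  have hPmem : ∀ t, P t ∈ LinearMap.range (tw ρ z - 1) := by
    intro t
    refine ⟨eqv.symm (Wm (k := k) N h (eqv t)), ?_⟩
    apply (eqv (k := k) (V := V)).injective
    rw [hD, LinearEquiv.apply_symm_apply, hPa, LinearEquiv.apply_symm_apply, ← DW r]
    rfl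
  have hPid : ∀ t ∈ LinearMap.range (tw ρ z - 1), P t = t := by
    rintro _ ⟨t, rfl⟩
    apply (eqv (k := k) (V := V)).injective
    rw [hPa, LinearEquiv.apply_symm_apply, hD]
    exact LinearMap.congr_fun (PD r) (eqv t)
  have hψ : ∀ t, (φ ∘ₗ P) t ∈ LinearMap.range (tw ρ z - 1) := fun t => hR _ (hPmem t)
  have h5 := LinearMap.trace_restrict_eq_of_forall_mem (LinearMap.range (tw ρ z - 1)) (φ ∘ₗ P) hψ
  have h6 : (φ ∘ₗ P).restrict (fun x _ => hψ x) = φ.restrict hR := by
    refine LinearMap.ext fun x => Subtype.ext ?_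
    change φ (P x.1) = φ x.1
    rw [hPid _ x.2]
  rw [h6] at h5
  rw [h5, ← key]
  have h7 : φ' ∘ₗ Pm N h = (eqv (k := k) (V := V)).conj (φ ∘ₗ P) := by
    refine LinearMap.ext fun x => ?_
    change φ' (Pm (k := k) N h x) = eqv (φ (P (eqv.symm x)))
    rw [hφ'a, hPa, LinearEquiv.apply_symm_apply]
  rw [h7, LinearMap.trace_conj']

/-- The consequence for direct summands. -/
theorem mod_four [IsAlgClosed k] [CharP k 2] [FiniteDimensional k V]
    {ρ : Representation k G V} (hodd : Odd (Module.finrank k V)) (hind : Indec ρ) {z : G}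
    (hzc : ∀ g, ρ z * ρ g = ρ g * ρ z) (hzz : ρ z * ρ z = 1)
    {A B : Submodule k (V ⊗[k] Module.Dual k V)} (hA : SInv (tw ρ) A) (hB : SInv (tw ρ) B)
    (hAB : IsCompl A B) :
    ∃ m, Module.finrank k A + Module.finrank k (A.map (tw ρ z - 1))
      = 4 * m + Module.finrank k (A ⊓ LinearMap.ker (tw ρ z - 1) :
          Submodule k (V ⊗[k] Module.Dual k V)) := by
  have hDA : ∀ x ∈ A, (tw ρ z - 1) x ∈ A := fun x hx => A.sub_mem (hA z x hx) hx
  have hDB : ∀ x ∈ B, (tw ρ z - 1) x ∈ B := fun x hx => B.sub_mem (hB z x hx) hx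
  have hcomm : ∀ g x, pr A B hAB (tw ρ g x) = tw ρ g (pr A B hAB x) := fun g x =>
    LinearMap.congr_fun (pr_comm hAB (hA g) (hB g)) x
  have hR : ∀ x ∈ LinearMap.range (tw ρ z - 1), pr A B hAB x ∈ LinearMap.range (tw ρ z - 1) := by
    rintro _ ⟨y, rfl⟩
    refine ⟨pr A B hAB y, ?_⟩
    exact (LinearMap.congr_fun (pr_comm hAB hDA hDB) y).symm
  have h0 := trace_range_zero hodd hind hzc hzz (pr A B hAB) hcomm hR
  -- the restriction is the projection onto the image of `A`
  have hproj : LinearMap.IsProj ((A.map (tw ρ z - 1)).comap (LinearMap.range (tw ρ z - 1)).subtype)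
      ((pr A B hAB).restrict hR) := by
    constructor
    · rintro ⟨_, ⟨y, rfl⟩⟩
      change pr A B hAB ((tw ρ z - 1) y) ∈ A.map (tw ρ z - 1)
      have := LinearMap.congr_fun (pr_comm hAB hDA hDB) y
      change pr A B hAB ((tw ρ z - 1) y) = (tw ρ z - 1) (pr A B hAB y) at this
      rw [this]
      exact Submodule.mem_map_of_mem (pr_mem hAB y)
    · rintro ⟨x, hx⟩ hxA
      apply Subtype.ext
      change pr A B hAB x = x
      apply pr_of_mem
      obtain ⟨y, hy, hyx⟩ := hxA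
      change (tw ρ z - 1) y = x at hyx
      rw [← hyx]
      exact hDA y hy
  have hev := even_of_isProj hproj h0
  have hle : A.map (tw ρ z - 1) ≤ LinearMap.range (tw ρ z - 1) := by
    rintro _ ⟨y, _, rfl⟩
    exact ⟨y, rfl⟩
  have hfin : Module.finrank k
      ((A.map (tw ρ z - 1)).comap (LinearMap.range (tw ρ z - 1)).subtype)
      = Module.finrank k (A.map (tw ρ z - 1)) := by
    have e4 : ((A.map (tw ρ z - 1)).comap (LinearMap.range (tw ρ z - 1)).subtype).map
        (LinearMap.range (tw ρ z - 1)).subtype = A.map (tw ρ z - 1) := by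
      rw [Submodule.map_comap_subtype, inf_eq_right.2 hle]
    rw [← Submodule.finrank_map_subtype_eq (LinearMap.range (tw ρ z - 1))
      ((A.map (tw ρ z - 1)).comap (LinearMap.range (tw ρ z - 1)).subtype), e4]
  rw [hfin] at hev
  have h1 := rank_nullity A (tw ρ z - 1)
  obtain ⟨m, hm⟩ := hev
  exact ⟨m, by omega⟩

end H77CI
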