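import Pool.Agent.Helper77.CI.Step

/-!
# MP_8096dd_al : from `End V` to `V ⊗ V*`, and decomposition into indecomposables
-/

open Module LinearMap
open scoped TensorProduct

namespace H77CI

variable {k V X : Type} [Field k] [AddCommGroup V] [Module k V] [AddCommGroup X] [Module k X]
variable {G : Type} [Group G]

theorem SInv.sup {τ : Representation k G X} {A B : Submodule k X} (hA : SInv τ A)
    (hB : SInv τ B) : SInv τ (A ⊔ B) := by
  intro g x hx
  obtain ⟨a, ha, b, hb, rfl⟩ := Submodule.mem_sup.1 hx
  rw [map_add]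
  exact Submodule.add_mem_sup (hA g a ha) (hB g b hb)

theorem SInv.iSup {τ : Representation k G X} {ι : Sort*} {A : ι → Submodule k X}
    (hA : ∀ i, SInv τ (A i)) : SInv τ (⨆ i, A i) := by
  intro g x hx
  have h1 : (⨆ i, A i) ≤ (⨆ i, A i).comap (τ g) := by
    refine iSup_le fun i y hy => ?_
    exact Submodule.mem_iSup_of_mem i (hA i g y hy)
  exact h1 hx

theorem indep_append {n m : ℕ} {W₁ : Fin n → Submodule k X} {W₂ : Fin m → Submodule k X}
    (h₁ : iSupIndep W₁) (h₂ : iSupIndep W₂) (h : Disjoint (⨆ i, W₁ i) (⨆ i, W₂ i)) :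
    iSupIndep (Fin.append W₁ W₂) := by
  intro i
  refine Fin.addCases (fun i => ?_) (fun i => ?_) i
  · rw [Fin.append_left]
    have h3 : Disjoint (W₁ i) ((⨆ (j) (_ : j ≠ i), W₁ j) ⊔ ⨆ j, W₂ j) := by
      apply Disjoint.disjoint_sup_right_of_disjoint_sup_left (h₁ i)
      refine h.mono_left (sup_le (le_iSup W₁ i) (iSup₂_le fun j _ => le_iSup W₁ j))
    refine h3.mono_right (iSup₂_le fun j hj => ?_)
    revert hj
    refine Fin.addCases (fun j hj => ?_) (fun j _ => ?_) j
    · rw [Fin.append_left]
      refine le_sup_of_le_left (le_iSup₂_of_le (f := fun j (_ : j ≠ i) => W₁ j) j ?_ le_rfl)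
      rintro rfl
      exact hj rfl
    · rw [Fin.append_right]
      exact le_sup_of_le_right (le_iSup W₂ j)
  · rw [Fin.append_right]
    have h3 : Disjoint (W₂ i) ((⨆ (j) (_ : j ≠ i), W₂ j) ⊔ ⨆ j, W₁ j) := by
      apply Disjoint.disjoint_sup_right_of_disjoint_sup_left (h₂ i)
      refine h.symm.mono_left (sup_le (le_iSup W₂ i) (iSup₂_le fun j _ => le_iSup W₂ j))
    refine h3.mono_right (iSup₂_le fun j hj => ?_)
    revert hj
    refine Fin.addCases (fun j _ => ?_) (fun j hj => ?_) j
    · rw [Fin.append_left]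
      exact le_sup_of_le_right (le_iSup W₁ j)
    · rw [Fin.append_right]
      refine le_sup_of_le_left (le_iSup₂_of_le (f := fun j (_ : j ≠ i) => W₂ j) j ?_ le_rfl)
      rintro rfl
      exact hj rfl

theorem iSup_append {n m : ℕ} (W₁ : Fin n → Submodule k X) (W₂ : Fin m → Submodule k X) :
    (⨆ i, Fin.append W₁ W₂ i) = (⨆ i, W₁ i) ⊔ ⨆ i, W₂ i := by
  apply le_antisymm
  · refine iSup_le fun i => ?_
    refine Fin.addCases (fun i => ?_) (fun i => ?_) i
    · rw [Fin.append_left]; exact le_sup_of_le_left (le_iSup W₁ i)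
    · rw [Fin.append_right]; exact le_sup_of_le_right (le_iSup W₂ i)
  · refine sup_le (iSup_le fun i => ?_) (iSup_le fun i => ?_)
    · rw [← Fin.append_left W₁ W₂ i]; exact le_iSup (Fin.append W₁ W₂) _
    · rw [← Fin.append_right W₁ W₂ i]; exact le_iSup (Fin.append W₁ W₂) _

/-- Indecomposability of an invariant submodule (as in the frozen statement). -/
def SIndec (τ : Representation k G X) (S : Submodule k X) : Prop :=
  ∀ A B : Submodule k X, (∀ g : G, ∀ x ∈ A, τ g x ∈ A) → (∀ g : G, ∀ x ∈ B, τ g x ∈ B) →
    A ⊓ B = ⊥ → A ⊔ B = S → A = ⊥ ∨ B = ⊥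

/-- Every invariant submodule is a direct sum of indecomposable ones. -/
theorem exists_decomp [FiniteDimensional k X] (τ : Representation k G X) :
    ∀ (d : ℕ) (S : Submodule k X), Module.finrank k S ≤ d → SInv τ S →
      ∃ (n : ℕ) (W : Fin n → Submodule k X), (∀ i, SInv τ (W i)) ∧
        (∀ i, W i ≠ ⊥ ∧ SIndec τ (W i)) ∧ iSupIndep W ∧ (⨆ i, W i) = S := by
  intro d
  induction d with
  | zero =>
    intro S hS _
    have : S = ⊥ := Submodule.finrank_eq_zero.1 (Nat.le_zero.1 hS)
    subst this
    exact ⟨0, Fin.elim0, fun i => i.elim0, fun i => i.elim0, fun i => i.elim0, by simp⟩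
  | succ d ih =>
    intro S hS hinv
    by_cases hbot : S = ⊥
    · subst hbot
      exact ⟨0, Fin.elim0, fun i => i.elim0, fun i => i.elim0, fun i => i.elim0, by simp⟩
    by_cases hind : SIndec τ S
    · refine ⟨1, fun _ => S, fun _ => hinv, fun _ => ⟨hbot, hind⟩, ?_, by simp⟩
      intro i
      have : (⨆ (j : Fin 1) (_ : j ≠ i), S) = ⊥ := by
        rw [iSup₂_eq_bot]
        intro j hj
        exact absurd (Subsingleton.elim j i) hj
      rw [this]
      exact disjoint_bot_right
    · simp only [SIndec, not_forall, not_or] at hind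
      obtain ⟨A, B, hA, hB, hAB, hsup, hA0, hB0⟩ := hind
      have hdim : Module.finrank k A + Module.finrank k B = Module.finrank k S := by
        have := Submodule.finrank_sup_add_finrank_inf_eq A B
        rw [hAB, hsup, finrank_bot, add_zero] at this
        exact this.symm
      have hApos : 0 < Module.finrank k A :=
        Nat.pos_of_ne_zero fun h => hA0 (Submodule.finrank_eq_zero.1 h)
      have hBpos : 0 < Module.finrank k B :=
        Nat.pos_of_ne_zero fun h => hB0 (Submodule.finrank_eq_zero.1 h)
      obtain ⟨n₁, W₁, a1, a2, a3, a4⟩ := ih A (by omega) hA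
      obtain ⟨n₂, W₂, b1, b2, b3, b4⟩ := ih B (by omega) hB
      refine ⟨n₁ + n₂, Fin.append W₁ W₂, ?_, ?_, ?_, ?_⟩
      · intro i
        refine Fin.addCases (fun i => ?_) (fun i => ?_) i
        · rw [Fin.append_left]; exact a1 i
        · rw [Fin.append_right]; exact b1 i
      · intro i
        refine Fin.addCases (fun i => ?_) (fun i => ?_) i
        · rw [Fin.append_left]; exact a2 i
        · rw [Fin.append_right]; exact b2 i
      · apply indep_append a3 b3
        rw [a4, b4, disjoint_iff]
        exact hAB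
      · rw [iSup_append, a4, b4, hsup]

/-! ### The equivalence between `V ⊗ V*` and `End V` -/

section

variable [FiniteDimensional k V]

/-- `v ⊗ f ↦ (x ↦ f x • v)`. -/
noncomputable def eqv : V ⊗[k] Module.Dual k V ≃ₗ[k] Module.End k V :=
  (TensorProduct.comm k V (Module.Dual k V)).trans (dualTensorHomEquiv k V V)

theorem eqv_tmul (v : V) (f : Module.Dual k V) (x : V) : eqv (k := k) (v ⊗ₜ[k] f) x = f x • v := by
  simp [eqv, dualTensorHomEquiv]

theorem eqv_equiv (ρ : Representation k G V) (g : G) (t : V ⊗[k] Module.Dual k V) :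
    eqv ((Representation.tprod ρ (Representation.dual ρ)) g t) = ρ g * eqv t * ρ g⁻¹ := by
  induction t using TensorProduct.induction_on with
  | zero => simp
  | tmul v f =>
    refine LinearMap.ext fun x => ?_
    rw [Representation.tprod_apply, TensorProduct.map_tmul, eqv_tmul, Module.End.mul_apply,
      Module.End.mul_apply, eqv_tmul, map_smul]
    rfl
  | add a b ha hb => rw [map_add, map_add, ha, hb, map_add, mul_add, add_mul]

theorem cInv_map {ρ : Representation k G V} {A : Submodule k (V ⊗[k] Module.Dual k V)}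
    (hA : SInv (Representation.tprod ρ (Representation.dual ρ)) A) :
    CInv ρ (A.map (eqv (k := k) (V := V)).toLinearMap) := by
  rintro g _ ⟨t, ht, rfl⟩
  exact ⟨_, hA g t ht, eqv_equiv ρ g t⟩

theorem isCompl_map {A B : Submodule k (V ⊗[k] Module.Dual k V)} (h : IsCompl A B) :
    IsCompl (A.map (eqv (k := k) (V := V)).toLinearMap)
      (B.map (eqv (k := k) (V := V)).toLinearMap) := by
  exact (Submodule.orderIsoMapComap (eqv (k := k) (V := V))).isCompl_iff.1 h

theorem good4_tensor {ρ : Representation k G V} (h : Good4 ρ)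
    {A B : Submodule k (V ⊗[k] Module.Dual k V)}
    (hA : SInv (Representation.tprod ρ (Representation.dual ρ)) A)
    (hB : SInv (Representation.tprod ρ (Representation.dual ρ)) B) (hAB : IsCompl A B) :
    Module.finrank k A % 4 = 0 ∨ Module.finrank k A % 4 = 1 := by
  have h1 := h _ _ (cInv_map hA) (cInv_map hB) (isCompl_map hAB)
  rw [LinearEquiv.finrank_map_eq] at h1
  exact h1

/-- The transfer from `V ⊗ V*` to `End V`. -/
theorem good4_of_summands {ρ : Representation k G V} (h : Mod4 (tw ρ)) : Good4 ρ := by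
  intro A B hA hB hAB
  have hinv : ∀ C : Submodule k (Module.End k V), CInv ρ C →
      SInv (tw ρ) (C.map (eqv (k := k) (V := V)).symm.toLinearMap) := by
    rintro C hC g _ ⟨x, hx, rfl⟩
    refine ⟨ρ g * x * ρ g⁻¹, hC g x hx, ?_⟩
    apply (eqv (k := k) (V := V)).injective
    rw [eqv_equiv]
    simp
  have hc : IsCompl (A.map (eqv (k := k) (V := V)).symm.toLinearMap)
      (B.map (eqv (k := k) (V := V)).symm.toLinearMap) :=
    (Submodule.orderIsoMapComap (eqv (k := k) (V := V)).symm).isCompl_iff.1 hAB
  have h1 := h _ _ (hinv A hA) (hinv B hB) hc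
  rw [LinearEquiv.finrank_map_eq] at h1
  exact h1

theorem summands_of_good4 {ρ : Representation k G V} (h : Good4 ρ) : Mod4 (tw ρ) :=
  fun _ _ hA hB hAB => good4_tensor h hA hB hAB

/-- The conclusion of the conjecture. -/
theorem conclusion [CharP k 2] {ρ : Representation k G V} (hodd : Odd (Module.finrank k V))
    (h : Good4 ρ) : TrivPlusFour (tw ρ) := by
  set τ := Representation.tprod ρ (Representation.dual ρ) with hτ
  have hm : ((Module.finrank k V : ℕ) : k) = 1 := by
    obtain ⟨n, hn⟩ := hodd
    rw [hn]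
    push_cast
    rw [CharTwo.two_eq_zero, zero_mul, zero_add]
  -- the unit
  set u : V ⊗[k] Module.Dual k V := eqv.symm 1 with hu
  have heu : eqv u = (1 : Module.End k V) := by rw [hu, LinearEquiv.apply_symm_apply]
  have hu0 : u ≠ 0 := by
    intro h0
    rw [h0, map_zero] at heu
    have h1 : Nontrivial V := by
      apply Module.nontrivial_of_finrank_pos (R := k)
      obtain ⟨n, hn⟩ := hodd
      omega
    exact zero_ne_one heu
  have hgu : ∀ g, τ g u = u := by
    intro g
    apply (eqv (k := k) (V := V)).injective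
    rw [hτ, eqv_equiv, heu, mul_one, rho_mul_inv]
  -- the trace
  let t : V ⊗[k] Module.Dual k V →ₗ[k] k :=
    LinearMap.trace k V ∘ₗ (eqv (k := k) (V := V)).toLinearMap
  have htu : t u = 1 := by
    change LinearMap.trace k V (eqv u) = 1
    rw [heu, LinearMap.trace_one, hm]
  have htg : ∀ g x, t (τ g x) = t x := by
    intro g x
    change LinearMap.trace k V (eqv (τ g x)) = LinearMap.trace k V (eqv x)
    rw [hτ, eqv_equiv, LinearMap.trace_mul_comm, ← mul_assoc, rho_inv_mul, one_mul]
  have hLinv : SInv τ (Submodule.span k {u}) := by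
    intro g x hx
    obtain ⟨c, rfl⟩ := Submodule.mem_span_singleton.1 hx
    rw [map_smul, hgu]
    exact hx
  have hSinv : SInv τ (LinearMap.ker t) := by
    intro g x hx
    rw [LinearMap.mem_ker] at hx ⊢
    rw [htg, hx]
  have hcompl : IsCompl (Submodule.span k {u}) (LinearMap.ker t) := by
    constructor
    · rw [Submodule.disjoint_def]
      intro x hx hx'
      obtain ⟨c, rfl⟩ := Submodule.mem_span_singleton.1 hx
      rw [LinearMap.mem_ker, map_smul, htu, smul_eq_mul, mul_one] at hx'
      rw [hx', zero_smul]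
    · rw [codisjoint_iff, eq_top_iff]
      intro x _
      have h1 : x = t x • u + (x - t x • u) := by abel
      rw [h1]
      refine Submodule.add_mem_sup (Submodule.smul_mem _ _ (Submodule.mem_span_singleton_self u)) ?_
      rw [LinearMap.mem_ker, map_sub, map_smul, htu, smul_eq_mul, mul_one, sub_self]
  obtain ⟨n, W, w1, w2, w3, w4⟩ := exists_decomp τ _ (LinearMap.ker t) le_rfl hSinv
  have hL1 : Module.finrank k (Submodule.span k {u}) = 1 := finrank_span_singleton hu0
  refine ⟨Submodule.span k {u}, n, W, hL1, ?_, fun i => ⟨w1 i, ⟨(w2 i).1, (w2 i).2⟩, ?_⟩, w3, ?_⟩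
  · intro g x hx
    obtain ⟨c, rfl⟩ := Submodule.mem_span_singleton.1 hx
    rw [map_smul, hgu]
  · -- divisibility by four
    set C : Submodule k (V ⊗[k] Module.Dual k V) := ⨆ (j) (_ : j ≠ i), W j with hC
    have hCinv : SInv τ C := SInv.iSup fun j => SInv.iSup fun _ => w1 j
    have hsup : W i ⊔ C = LinearMap.ker t := by
      rw [← w4]
      apply le_antisymm
      · exact sup_le (le_iSup W i) (iSup₂_le fun j _ => le_iSup W j)
      · refine iSup_le fun j => ?_
        by_cases hj : j = i
        · rw [hj]; exact le_sup_left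
        · exact le_sup_of_le_right (le_iSup₂_of_le (f := fun j (_ : j ≠ i) => W j) j hj le_rfl)
    have hdis : Disjoint (W i) C := w3 i
    have c1 : IsCompl (W i) (C ⊔ Submodule.span k {u}) := by
      constructor
      · apply Disjoint.disjoint_sup_right_of_disjoint_sup_left hdis
        rw [hsup]
        exact hcompl.disjoint.symm
      · rw [codisjoint_iff, ← sup_assoc, hsup, sup_comm]
        exact hcompl.sup_eq_top
    have c2 : IsCompl (Submodule.span k {u} ⊔ W i) C := by
      constructor
      · apply Disjoint.disjoint_sup_left_of_disjoint_sup_right hdis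
        rw [hsup]
        exact hcompl.disjoint
      · rw [codisjoint_iff, sup_assoc, hsup]
        exact hcompl.sup_eq_top
    have d1 := good4_tensor h (w1 i) (hCinv.sup hLinv) c1
    have d2 := good4_tensor h (hLinv.sup (w1 i)) hCinv c2
    have hLW : Disjoint (Submodule.span k {u}) (W i) := by
      refine hcompl.disjoint.mono_right ?_
      rw [← hsup]
      exact le_sup_left
    have d3 := Submodule.finrank_sup_add_finrank_inf_eq (Submodule.span k {u}) (W i)
    rw [disjoint_iff.1 hLW, finrank_bot, add_zero, hL1] at d3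
    rw [d3] at d2
    omega
  · rw [w4]
    exact hcompl

end

end H77CI
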