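import Mathlib

/-!
# MP_8096dd_al : definitions used in the statements

`k` is a field, `G` a group, `ρ` a representation of `G` on a `k`-vector space `V`.
-/

open scoped TensorProduct

namespace H77CI

variable {k V X : Type} [Field k] [AddCommGroup V] [Module k V] [AddCommGroup X] [Module k X]
variable {G : Type} [Group G]

/-- `V` is not a direct sum of two non-zero subrepresentations (as in the frozen statement). -/
def Indec (ρ : Representation k G V) : Prop :=
  ∀ A B : Submodule k V, (∀ g : G, ∀ x ∈ A, ρ g x ∈ A) → (∀ g : G, ∀ x ∈ B, ρ g x ∈ B) →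
    IsCompl A B → A = ⊥ ∨ B = ⊥

/-- `A` is a subrepresentation. -/
def SInv (τ : Representation k G X) (A : Submodule k X) : Prop := ∀ g : G, ∀ x ∈ A, τ g x ∈ A

/-- `G` acts trivially on `A`. -/
def Fixed (τ : Representation k G X) (A : Submodule k X) : Prop := ∀ g : G, ∀ x ∈ A, τ g x = x

/-- `S` is not zero and is not the direct sum of two non-zero subrepresentations. -/
def SubIndec (τ : Representation k G X) (S : Submodule k X) : Prop :=
  S ≠ ⊥ ∧ ∀ A B : Submodule k X, SInv τ A → SInv τ B → A ⊓ B = ⊥ → A ⊔ B = S → A = ⊥ ∨ B = ⊥

/-- The representation on `V ⊗ V*`. -/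
noncomputable abbrev tw (ρ : Representation k G V) : Representation k G (V ⊗[k] Module.Dual k V) :=
  Representation.tprod ρ (Representation.dual ρ)

/-- Every direct summand of the representation has dimension `0` or `1` modulo `4`. -/
def Mod4 (τ : Representation k G X) : Prop :=
  ∀ A B : Submodule k X, SInv τ A → SInv τ B → IsCompl A B →
    Module.finrank k A % 4 = 0 ∨ Module.finrank k A % 4 = 1

/-- The representation is the direct sum of a trivial one-dimensional representation `L` and of
indecomposable ones `W i` of dimension divisible by `4`. -/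
def TrivPlusFour (τ : Representation k G X) : Prop :=
  ∃ (L : Submodule k X) (n : ℕ) (W : Fin n → Submodule k X),
    Module.finrank k L = 1 ∧ Fixed τ L ∧
      (∀ i, SInv τ (W i) ∧ SubIndec τ (W i) ∧ 4 ∣ Module.finrank k (W i)) ∧
      iSupIndep W ∧ IsCompl L (⨆ i, W i)

/-- The group elements acting as endomorphisms of the representation. -/
def Cen (ρ : Representation k G V) : Set G := {z | ∀ g, ρ z * ρ g = ρ g * ρ z}

/-- The endomorphism `z - 1`. -/
def zOne (τ : Representation k G X) (z : G) : X →ₗ[k] X := τ z - LinearMap.id

/-- `V'` is isomorphic to `ker (z - 1) / im (z - 1)`, for `z` with `z` of square one on `V`. The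
map `q` is the projection of `ker (z-1)` onto `V'`. -/
def Step {V' : Type} [AddCommGroup V'] [Module k V'] (ρ : Representation k G V) (z : G)
    (ρ' : Representation k G V') : Prop :=
  ρ z * ρ z = 1 ∧ ∃ q : LinearMap.ker (zOne ρ z) →ₗ[k] V',
    Function.Surjective q ∧
    (∀ x : LinearMap.ker (zOne ρ z), q x = 0 ↔ (x : V) ∈ LinearMap.range (zOne ρ z)) ∧
    (∀ (g : G) (x y : LinearMap.ker (zOne ρ z)), (y : V) = ρ g x → q y = ρ' g (q x))

/-- `Tower k G S V ρ`: by steps `V ↦ V' = ker (z-1) / im (z-1)`, with `z` in the set `S` and `z` of
square one on `V`, one can arrive at a representation `W` which is indecomposable of dimension `3`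
or for which `W ⊗ W*` has the property `Mod4` (for example `dim W = 1`). When a representation on
the way is indecomposable, one may replace `S` by the set of all `z` acting centrally on it. -/
inductive Tower (k G : Type) [Field k] [Group G] :
    Set G → ∀ (V : Type) [AddCommGroup V] [Module k V], Representation k G V → Prop
  | three (S : Set G) (V : Type) [AddCommGroup V] [Module k V] (ρ : Representation k G V) :
      Indec ρ → Module.finrank k V = 3 → Tower k G S V ρ
  | good (S : Set G) (V : Type) [AddCommGroup V] [Module k V] (ρ : Representation k G V) :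
      Mod4 (tw ρ) → Tower k G S V ρ
  | step (S : Set G) (V V' : Type) [AddCommGroup V] [Module k V] [AddCommGroup V']
      [Module k V'] (ρ : Representation k G V) (ρ' : Representation k G V') (z : G) :
      z ∈ S → Step ρ z ρ' → Tower k G S V' ρ' → Tower k G S V ρ
  | enlarge (S : Set G) (V : Type) [AddCommGroup V] [Module k V] (ρ : Representation k G V) :
      Indec ρ → Tower k G (Cen ρ) V ρ → Tower k G S V ρ

/-- The rank of `z - 1` on a subrepresentation. -/
noncomputable def rk (τ : Representation k G X) (z : G) (A : Submodule k X) : ℕ :=
  Module.finrank k (A.map (zOne τ z))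

/-- The dimension of the kernel of `z - 1` on a subrepresentation. -/
noncomputable def nul (τ : Representation k G X) (z : G) (A : Submodule k X) : ℕ :=
  Module.finrank k (A ⊓ LinearMap.ker (zOne τ z) : Submodule k X)

end H77CI
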