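import Pool.Agent.Helper77.CI.Tower2

/-!
# MP_8096dd_al : the corollaries
-/

open Module LinearMap
open scoped TensorProduct

namespace H77CI

variable {k V : Type} [Field k] [AddCommGroup V] [Module k V]
variable {G : Type} [Group G]

section quot

variable (ρ : Representation k G V) (N : Module.End k V) (hc : ∀ g, N * ρ g = ρ g * N)

theorem ker_stable (hc : ∀ g, N * ρ g = ρ g * N) (g : G) :
    ∀ x ∈ LinearMap.ker N, ρ g x ∈ LinearMap.ker N := by
  intro x hx
  rw [LinearMap.mem_ker] at hx ⊢
  have := LinearMap.congr_fun (hc g) x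
  rw [Module.End.mul_apply, Module.End.mul_apply, hx, map_zero] at this
  exact this

/-- The image of `N` inside its kernel. -/
abbrev imK : Submodule k (LinearMap.ker N) :=
  (LinearMap.range N).comap (LinearMap.ker N).subtype

theorem im_stable (hc : ∀ g, N * ρ g = ρ g * N) (g : G) :
    imK N ≤ (imK N).comap ((ρ g).restrict (ker_stable ρ N hc g)) := by
  rintro x ⟨y, hy⟩
  refine ⟨ρ g y, ?_⟩
  have := LinearMap.congr_fun (hc g) y
  rw [Module.End.mul_apply, Module.End.mul_apply, hy] at this
  rw [this]
  rfl

/-- The representation on `ker N / im N`. -/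
noncomputable def quotRep : Representation k G (LinearMap.ker N ⧸ imK N) where
  toFun g := (imK N).mapQ (imK N) ((ρ g).restrict (ker_stable ρ N hc g)) (im_stable ρ N hc g)
  map_one' := by
    apply Submodule.linearMap_qext
    refine LinearMap.ext fun x => ?_
    simp only [LinearMap.comp_apply, Submodule.mkQ_apply, Submodule.mapQ_apply]
    congr 1
    apply Subtype.ext
    simp
  map_mul' a b := by
    apply Submodule.linearMap_qext
    refine LinearMap.ext fun x => ?_
    simp only [LinearMap.comp_apply, Submodule.mkQ_apply, Submodule.mapQ_apply,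
      Module.End.mul_apply]
    congr 1
    apply Subtype.ext
    simp

theorem quotRep_apply (g : G) (x y : LinearMap.ker N) (hxy : (y : V) = ρ g x) :
    (imK N).mkQ y = quotRep ρ N hc g ((imK N).mkQ x) := by
  change (imK N).mkQ y = (imK N).mapQ (imK N) _ (im_stable ρ N hc g) ((imK N).mkQ x)
  rw [Submodule.mkQ_apply, Submodule.mkQ_apply, Submodule.mapQ_apply]
  congr 1
  exact Subtype.ext hxy

end quot

theorem indec_of_finrank_one {X : Type} [AddCommGroup X] [Module k X] {τ : Representation k G X}
    (h : Module.finrank k X = 1) : Indec τ := by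
  intro A B _ _ hAB
  have hfd : FiniteDimensional k X := Module.finite_of_finrank_pos (by omega)
  have h1 := Submodule.finrank_add_eq_of_isCompl hAB
  rw [h] at h1
  rcases Nat.eq_zero_or_pos (Module.finrank k A) with h0 | h0
  · exact Or.inl (Submodule.finrank_eq_zero.1 h0)
  · exact Or.inr (Submodule.finrank_eq_zero.1 (by omega))

theorem summands_of_finrank_one [FiniteDimensional k V] {ρ : Representation k G V}
    (h : Module.finrank k V = 1) : Mod4 (tw ρ) := by
  intro A B _ _ _
  have h2 : Module.finrank k (V ⊗[k] Module.Dual k V) = 1 := by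
    rw [Module.finrank_tensorProduct, Subspace.dual_finrank_eq, h]
  have h3 := Submodule.finrank_le A
  omega

/-- The step with a central involution of maximal rank. -/
theorem exists_step (ρ : Representation k G V) {z : G}
    (hzc : ∀ g, ρ z * ρ g = ρ g * ρ z) (hzz : ρ z * ρ z = 1) :
    Step ρ z (quotRep ρ (zOne ρ z) (by
      intro g
      change (ρ z - 1) * ρ g = ρ g * (ρ z - 1)
      rw [sub_mul, mul_sub, hzc g, one_mul, mul_one])) := by
  refine ⟨hzz, (imK (zOne ρ z)).mkQ, Submodule.mkQ_surjective _, ?_, ?_⟩
  · intro x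
    rw [Submodule.mkQ_apply, Submodule.Quotient.mk_eq_zero]
    rfl
  · intro g x y hxy
    exact quotRep_apply ρ (zOne ρ z) _ g x y hxy

/-- A three-dimensional indecomposable module of a finite `2`-group has a suitable involution. -/
theorem exists_involution [FiniteDimensional k V] [CharP k 2] [Finite G] (hG : IsPGroup 2 G)
    {ρ : Representation k G V} (h3 : Module.finrank k V = 3) (hind : Indec ρ) :
    ∃ z : G, (∀ g, ρ z * ρ g = ρ g * ρ z) ∧ ρ z * ρ z = 1 ∧
      2 * Module.finrank k (LinearMap.range (ρ z - 1)) + 1 = Module.finrank k V := by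
  set f : G →* (Module.End k V)ˣ := ρ.toHomUnits with hf
  have hfv : ∀ g, ((f g : (Module.End k V)ˣ) : Module.End k V) = ρ g := fun g => rfl
  -- the image is not trivial
  have hnt : Nontrivial f.range := by
    by_contra hcon
    rw [not_nontrivial_iff_subsingleton] at hcon
    have h1 : ∀ g, ρ g = 1 := by
      intro g
      have : (⟨f g, g, rfl⟩ : f.range) = ⟨1, one_mem _⟩ := Subsingleton.elim _ _
      have h2 : f g = 1 := congrArg Subtype.val this
      rw [← hfv, h2]
      rfl
    obtain ⟨v, hv⟩ : ∃ v : V, v ≠ 0 := by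
      have : Nontrivial V := Module.nontrivial_of_finrank_pos (R := k) (by omega)
      exact exists_ne 0
    obtain ⟨C, hC⟩ := Submodule.exists_isCompl (Submodule.span k {v})
    have h4 : Module.finrank k (Submodule.span k {v}) = 1 := finrank_span_singleton hv
    have h5 := Submodule.finrank_add_eq_of_isCompl hC
    rcases hind _ _ (fun g x hx => by rw [h1 g]; exact hx) (fun g x hx => by rw [h1 g]; exact hx) hC
      with h | h
    · rw [h, finrank_bot] at h4
      omega
    · rw [h, finrank_bot] at h5
      omega
  have hfin : Finite f.range := by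
    have : Finite (Set.range f) := Set.finite_range f
    exact this
  have hP : IsPGroup 2 f.range := hG.of_surjective f.rangeRestrict f.rangeRestrict_surjective
  have hcn := hP.center_nontrivial
  have hPc : IsPGroup 2 (Subgroup.center f.range) := hP.to_subgroup _
  obtain ⟨c, hc⟩ := exists_prime_orderOf_dvd_card' (G := Subgroup.center f.range) 2 (by
    obtain ⟨m, hm⟩ := IsPGroup.iff_card.1 hPc
    rw [hm]
    rcases Nat.eq_zero_or_pos m with rfl | hpos
    · exfalso
      rw [pow_zero] at hm
      have := (Finite.one_lt_card_iff_nontrivial (α := Subgroup.center f.range)).2 hcn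
      omega
    · exact dvd_pow_self 2 (by omega))
  obtain ⟨⟨_, z, rfl⟩, hcz⟩ := c
  have hzc : ∀ g, ρ z * ρ g = ρ g * ρ z := by
    intro g
    have h1 := (Subgroup.mem_center_iff.1 hcz) ⟨f g, g, rfl⟩
    have h2 : f g * f z = f z * f g := congrArg Subtype.val h1
    have h3 := congrArg Units.val h2
    rw [Units.val_mul, Units.val_mul, hfv, hfv] at h3
    exact h3.symm
  have hz1 : ρ z ≠ 1 := by
    intro h1
    have h2 : f z = 1 := Units.ext (by rw [hfv, h1]; rfl)
    have h6 : (⟨⟨f z, z, rfl⟩, hcz⟩ : Subgroup.center f.range) = 1 :=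
      Subtype.ext (Subtype.ext h2)
    rw [h6, orderOf_one] at hc
    omega
  have hzz : ρ z * ρ z = 1 := by
    have h1 := pow_orderOf_eq_one (⟨⟨f z, z, rfl⟩, hcz⟩ : Subgroup.center f.range)
    rw [hc, pow_two] at h1
    have h2 : f z * f z = 1 := congrArg (fun x => x.1.1) h1
    have h3 := congrArg Units.val h2
    rw [Units.val_mul, hfv] at h3
    exact h3
  refine ⟨z, hzc, hzz, ?_⟩
  have htwo : ∀ x : Module.End k V, x + x = 0 := by
    intro x
    rw [← two_smul k x, CharTwo.two_eq_zero, zero_smul]
  have hNN : (ρ z - 1) * (ρ z - 1) = 0 := by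
    have : (ρ z - 1) * (ρ z - 1) = (1 - ρ z) + (1 - ρ z) := by
      rw [sub_mul, mul_sub, hzz]
      simp only [mul_one, one_mul]
      abel
    rw [this]
    exact htwo _
  have hle : LinearMap.range (ρ z - 1) ≤ LinearMap.ker (ρ z - 1) := by
    rintro _ ⟨y, rfl⟩
    exact LinearMap.congr_fun hNN y
  have e1 := LinearMap.finrank_range_add_finrank_ker (ρ z - 1)
  have e2 := Submodule.finrank_mono hle
  have e3 : Module.finrank k (LinearMap.range (ρ z - 1)) ≠ 0 := by
    intro h0
    apply hz1
    have := LinearMap.range_eq_bot.1 (Submodule.finrank_eq_zero.1 h0)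
    exact sub_eq_zero.1 this
  omega

/-- All three-dimensional indecomposable modules of finite `2`-groups. -/
theorem mod4_three [FiniteDimensional k V] [IsAlgClosed k] [CharP k 2] [Finite G]
    (hG : IsPGroup 2 G) {ρ : Representation k G V} (h3 : Module.finrank k V = 3)
    (hind : Indec ρ) : Mod4 (tw ρ) := by
  obtain ⟨z, hzc, hzz, hr⟩ := exists_involution hG h3 hind
  have hodd : Odd (Module.finrank k V) := by rw [h3]; decide
  apply summands_of_good4
  intro A B hA hB hAB
  obtain ⟨hfd, -, -, hdim, hstep⟩ := one_step hodd (S := Cen ρ) (fun _ hw => hw) (z := z) hzc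
    (exists_step ρ hzc hzz)
  obtain ⟨A', B', hAB', -, -, -, hmod⟩ := hstep A B hAB hA hB (kp_of_indec hodd hind hA hB hAB)
  have h1 := Submodule.finrank_le A'
  have h2 : Module.finrank k (LinearMap.ker (zOne ρ z) ⧸ imK (zOne ρ z)) = 1 := by omega
  rw [Module.finrank_linearMap, h2] at h1
  rw [hmod]
  omega

/-- The induction along a tower. -/
theorem tower_mod4 {k G : Type} [Field k] [IsAlgClosed k] [CharP k 2] [Group G] [Finite G]
    (hG : IsPGroup 2 G) {S : Set G} {V : Type} [AddCommGroup V] [Module k V]
    {ρ : Representation k G V} (hT : Tower k G S V ρ) :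
    FiniteDimensional k V → Odd (Module.finrank k V) → S ⊆ Cen ρ →
      ∀ (A B : Submodule k (Module.End k V)) (hAB : IsCompl A B), CInv ρ A → CInv ρ B →
        KP ρ S (pr A B hAB) → Module.finrank k A % 4 = 0 ∨ Module.finrank k A % 4 = 1 := by
  induction hT with
  | three S V ρ hind h3 =>
    intro _ _ _ A B hAB hA hB _
    exact good4_of_summands (mod4_three hG h3 hind) A B hA hB hAB
  | good S V ρ hM =>
    intro _ _ _ A B hAB hA hB _
    exact good4_of_summands hM A B hA hB hAB
  | step S V V' ρ ρ' z hzS hst _ ih =>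
    intro _ hodd hS A B hAB hA hB hK
    obtain ⟨hfd, hodd', hS', -, hstep⟩ := one_step hodd hS hzS hst
    obtain ⟨A', B', hAB', hA', hB', hK', hmod⟩ := hstep A B hAB hA hB hK
    rw [hmod]
    exact ih hfd hodd' hS' A' B' hAB' hA' hB' hK'
  | enlarge S V ρ hind _ ih =>
    intro hfd hodd _ A B hAB hA hB _
    exact ih hfd hodd (fun _ hw => hw) A B hAB hA hB (kp_of_indec hodd hind hA hB hAB)

/-- **Towers**. -/
theorem decomposes_of_tower [FiniteDimensional k V] [IsAlgClosed k] [CharP k 2] [Finite G]
    (hG : IsPGroup 2 G) {ρ : Representation k G V} (hodd : Odd (Module.finrank k V))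
    (hind : Indec ρ) (hT : Tower k G (Cen ρ) V ρ) : TrivPlusFour (tw ρ) := by
  apply conclusion hodd
  intro A B hA hB hAB
  exact tower_mod4 hG hT inferInstance hodd (fun _ hw => hw) A B hAB hA hB
    (kp_of_indec hodd hind hA hB hAB)

end H77CI
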