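import Pool.Agent.Helper77.CI.Sum

/-!
# MP_8096dd_al : the functor `ker (z-1) / im (z-1)` on `End V`
-/

open Module LinearMap

namespace H77CI

variable {k V V' : Type} [Field k] [AddCommGroup V] [Module k V] [AddCommGroup V'] [Module k V']
variable {G : Type} [Group G]

/-- `V'` is `ker N / im N`, by means of a map `qh : V → V'` and a section `sh`. -/
structure Hq (N : Module.End k V) (qh : V →ₗ[k] V') (sh : V' →ₗ[k] V) : Prop where
  qN : ∀ v, qh (N v) = 0
  Ns : ∀ w, N (sh w) = 0
  qs : ∀ w, qh (sh w) = w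
  ker : ∀ v, N v = 0 → qh v = 0 → ∃ w, v = N w

/-- Existence of the data from a surjection of `ker N` onto `V'` with kernel `im N`. -/
theorem exists_Hq [FiniteDimensional k V] (h2 : ∀ x : Module.End k V, x + x = 0)
    {N : Module.End k V} (hN : N * N = 0)
    (q : LinearMap.ker N →ₗ[k] V') (hq : Function.Surjective q)
    (hk : ∀ x : LinearMap.ker N, q x = 0 ↔ (x : V) ∈ LinearMap.range N) :
    ∃ (h : Module.End k V) (qh : V →ₗ[k] V') (sh : V' →ₗ[k] V), Rel N h ∧ Hq N qh sh ∧
      ∀ x : LinearMap.ker N, qh x = q x := by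
  obtain ⟨h, h1, h3, h4⟩ := exists_h N hN
  have r : Rel N h := ⟨h2, hN, by rw [← mul_assoc]; exact h1, by rw [← mul_assoc]; exact h3, h4⟩
  obtain ⟨s, hs⟩ := q.exists_rightInverse_of_surjective (LinearMap.range_eq_top.2 hq)
  have hs' : ∀ w, q (s w) = w := fun w => LinearMap.congr_fun hs w
  have hmem : ∀ v, (1 + h * N + N * h) v ∈ LinearMap.ker N := by
    intro v
    rw [LinearMap.mem_ker]
    have : N * (1 + h * N + N * h) = 0 := by
      simp only [mul_add, mul_one, r.NhN, r.NN', add_zero]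
      exact h2 N
    exact LinearMap.congr_fun this v
  have hqr : ∀ x : LinearMap.ker N, (x : V) ∈ LinearMap.range N → q x = 0 := fun x hx =>
    (hk x).2 hx
  have hdiff : ∀ x : LinearMap.ker N,
      q ((1 + h * N + N * h).codRestrict (LinearMap.ker N) hmem x) = q x := by
    intro x
    rw [← sub_eq_zero, ← map_sub]
    apply hqr
    have hx : N (x : V) = 0 := x.2
    refine ⟨h x, ?_⟩
    simp only [AddSubgroupClass.coe_sub, LinearMap.codRestrict_apply, LinearMap.add_apply,
      Module.End.one_apply, Module.End.mul_apply, hx, map_zero, add_zero]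
    simp
  refine ⟨h, q ∘ₗ (1 + h * N + N * h).codRestrict (LinearMap.ker N) hmem,
    (LinearMap.ker N).subtype ∘ₗ s, r, ⟨?_, ?_, ?_, ?_⟩, ?_⟩
  · intro v
    rw [LinearMap.comp_apply]
    have hv : N (N v) = 0 := LinearMap.congr_fun hN v
    exact (hdiff ⟨N v, hv⟩).trans (hqr ⟨N v, hv⟩ ⟨v, rfl⟩)
  · intro w
    exact (s w).2
  · intro w
    rw [LinearMap.comp_apply]
    exact (hdiff (s w)).trans (hs' w)
  · intro v hv hqv
    have h5 : q ⟨v, hv⟩ = 0 := by
      rw [← hdiff ⟨v, hv⟩]
      exact hqv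
    obtain ⟨w, hw⟩ := (hk ⟨v, hv⟩).1 h5
    exact ⟨w, hw.symm⟩
  · intro x
    rw [LinearMap.comp_apply]
    exact hdiff x

/-- The map on endomorphisms. -/
noncomputable def Ph (qh : V →ₗ[k] V') (sh : V' →ₗ[k] V) :
    Module.End k V →ₗ[k] Module.End k V' where
  toFun x := qh ∘ₗ x ∘ₗ sh
  map_add' x y := by rw [LinearMap.add_comp, LinearMap.comp_add]
  map_smul' c x := by rw [LinearMap.smul_comp, LinearMap.comp_smul, RingHom.id_apply]

theorem Ph_apply (qh : V →ₗ[k] V') (sh : V' →ₗ[k] V) (x : Module.End k V) (w : V') :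
    Ph qh sh x w = qh (x (sh w)) := rfl

section

variable {N h : Module.End k V} {qh : V →ₗ[k] V'} {sh : V' →ₗ[k] V}

theorem Ph_D (r : Rel N h) (H : Hq N qh sh) (x : Module.End k V) :
    Ph qh sh (Dm (k := k) N x) = 0 := by
  refine LinearMap.ext fun w => ?_
  rw [Ph_apply]
  have h1 : Dm (k := k) N x (sh w) = x (sh w) + N (x (sh w)) + x (sh w) := by
    change ((1 + N) * (x * (1 + N)) + x) (sh w) = _
    simp only [LinearMap.add_apply, Module.End.mul_apply, Module.End.one_apply, H.Ns, add_zero]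
  rw [h1, map_add, map_add, H.qN, add_zero, ← map_add]
  have h3 : x (sh w) + x (sh w) = 0 := LinearMap.congr_fun (r.two x) (sh w)
  rw [h3, map_zero, LinearMap.zero_apply]

theorem Ph_comm (H : Hq N qh sh) {x : Module.End k V} (hx : N * x = x * N) {v : V}
    (hv : N v = 0) : qh (x v) = Ph qh sh x (qh v) := by
  rw [Ph_apply]
  obtain ⟨w, hw⟩ := H.ker (v - sh (qh v)) (by rw [map_sub, hv, H.Ns, sub_zero])
    (by rw [map_sub, H.qs, sub_self])
  have h1 : x (v - sh (qh v)) = N (x w) := by
    rw [hw]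
    exact (LinearMap.congr_fun hx w).symm
  have h2 : qh (x (v - sh (qh v))) = 0 := by rw [h1, H.qN]
  rw [map_sub, map_sub, sub_eq_zero] at h2
  exact h2

theorem Ph_ker (r : Rel N h) (H : Hq N qh sh) {x : Module.End k V} (hx : N * x = x * N)
    (h0 : Ph qh sh x = 0) : ∃ y, x = Dm (k := k) N y := by
  have h1 := P_of_comm (k := k) r hx
  have hmid : (1 + h * N + N * h) * x * (1 + h * N + N * h) = 0 := by
    refine LinearMap.ext fun v => ?_
    have hNm : N * (1 + h * N + N * h) = 0 := by
      simp only [mul_add, mul_one, r.NhN, r.NN', add_zero]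
      exact r.two N
    have hmN : (1 + h * N + N * h) * N = 0 := by
      simp only [add_mul, mul_assoc, one_mul, r.NN, r.NhN, mul_zero, add_zero]
      exact r.two N
    have hv : N ((1 + h * N + N * h) v) = 0 := LinearMap.congr_fun hNm v
    have hxv : N (x ((1 + h * N + N * h) v)) = 0 := by
      have := LinearMap.congr_fun hx ((1 + h * N + N * h) v)
      rw [Module.End.mul_apply, Module.End.mul_apply, hv, map_zero] at this
      exact this
    have hq : qh (x ((1 + h * N + N * h) v)) = 0 := by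
      rw [Ph_comm H hx hv, h0, LinearMap.zero_apply]
    obtain ⟨w, hw⟩ := H.ker _ hxv hq
    rw [Module.End.mul_apply, Module.End.mul_apply, hw]
    exact LinearMap.congr_fun hmN w
  rw [hmid, add_zero] at h1
  refine ⟨Wm (k := k) N h x, ?_⟩
  rw [h1]
  have := LinearMap.congr_fun (DW r) x
  rw [LinearMap.comp_apply] at this
  rw [← h1]
  rw [this]
  exact h1

theorem Ph_surj (H : Hq N qh sh) (f : Module.End k V') :
    ∃ x : Module.End k V, N * x = x * N ∧ Ph qh sh x = f := by
  refine ⟨sh ∘ₗ f ∘ₗ qh, ?_, ?_⟩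
  · refine LinearMap.ext fun v => ?_
    simp only [Module.End.mul_apply, LinearMap.comp_apply, H.Ns, H.qN, map_zero]
  · refine LinearMap.ext fun w => ?_
    simp only [Ph_apply, LinearMap.comp_apply, H.qs]

end

end H77CI
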