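import Pool.Agent.Helper77.CI.Hom

/-!
# MP_8096dd_al : the dimensions of the summands modulo 4
-/

open Module LinearMap

namespace H77CI

variable {k V V' : Type} [Field k] [AddCommGroup V] [Module k V] [AddCommGroup V'] [Module k V']
variable {G : Type} [Group G]

/-- Stability under conjugation. -/
def CInv (ρ : Representation k G V) (A : Submodule k (Module.End k V)) : Prop :=
  ∀ g : G, ∀ x ∈ A, ρ g * x * ρ g⁻¹ ∈ A

/-- All summands of `End V` have dimension `0` or `1` modulo `4`. -/
def Good4 (ρ : Representation k G V) : Prop :=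
  ∀ A B : Submodule k (Module.End k V), CInv ρ A → CInv ρ B → IsCompl A B →
    Module.finrank k A % 4 = 0 ∨ Module.finrank k A % 4 = 1

theorem rank_nullity {X Y : Type} [AddCommGroup X] [Module k X] [FiniteDimensional k X]
    [AddCommGroup Y] [Module k Y] (p : Submodule k X) (f : X →ₗ[k] Y) :
    Module.finrank k (p.map f) + Module.finrank k (p ⊓ LinearMap.ker f : Submodule k X)
      = Module.finrank k p := by
  have h1 := LinearMap.finrank_range_add_finrank_ker (f.domRestrict p)
  have h2 : LinearMap.range (f.domRestrict p) = p.map f := LinearMap.range_domRestrict p f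
  have h3 : Module.finrank k (LinearMap.ker (f.domRestrict p))
      = Module.finrank k (p ⊓ LinearMap.ker f : Submodule k X) := by
    have e : (LinearMap.ker (f.domRestrict p)).map p.subtype = p ⊓ LinearMap.ker f := by
      ext x
      simp only [Submodule.mem_map, LinearMap.mem_ker, Submodule.mem_inf]
      constructor
      · rintro ⟨y, hy, rfl⟩
        exact ⟨y.2, hy⟩
      · rintro ⟨hx, hfx⟩
        exact ⟨⟨x, hx⟩, hfx, rfl⟩
    rw [← e]
    exact (Submodule.finrank_map_subtype_eq p _).symm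
  rw [h2, h3] at h1
  exact h1

section

variable [FiniteDimensional k V] {N h : Module.End k V} {qh : V →ₗ[k] V'} {sh : V' →ₗ[k] V}

theorem Ph_equiv {ρ : Representation k G V} {ρ' : Representation k G V'}
    (H : Hq N qh sh) (hNc : ∀ g, N * ρ g = ρ g * N)
    (hq : ∀ g v, N v = 0 → qh (ρ g v) = ρ' g (qh v)) {x : Module.End k V} (hx : N * x = x * N)
    (g : G) : Ph qh sh (ρ g * x * ρ g⁻¹) = ρ' g * Ph qh sh x * ρ' g⁻¹ := by
  have hNg : ∀ (g : G) v, N v = 0 → N (ρ g v) = 0 := by
    intro g v hv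
    have := LinearMap.congr_fun (hNc g) v
    rw [Module.End.mul_apply, Module.End.mul_apply, hv, map_zero] at this
    exact this
  have hNx : ∀ v, N v = 0 → N (x v) = 0 := by
    intro v hv
    have := LinearMap.congr_fun hx v
    rw [Module.End.mul_apply, Module.End.mul_apply, hv, map_zero] at this
    exact this
  refine LinearMap.ext fun w => ?_
  have h1 : N (sh w) = 0 := H.Ns w
  have h2 := hNg g⁻¹ _ h1
  rw [Ph_apply, Module.End.mul_apply, Module.End.mul_apply, Module.End.mul_apply,
    Module.End.mul_apply, hq g _ (hNx _ h2), Ph_comm H hx h2, hq g⁻¹ _ h1, H.qs]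

/-- Stability of invariant submodules under `D`. -/
theorem D_stable {ρ : Representation k G V} {z : G} (r : Rel N h) (hz : ρ z = 1 + N)
    {C : Submodule k (Module.End k V)} (hC : CInv ρ C) : ∀ x ∈ C, Dm (k := k) N x ∈ C := by
  have hzz : (1 + N) * (1 + N) = 1 := by
    simp only [mul_add, add_mul, mul_one, one_mul, r.NN, add_zero]
    rw [add_assoc, r.two, add_zero]
  have hzinv : ρ z⁻¹ = 1 + N := by
    calc ρ z⁻¹ = ρ z⁻¹ * ((1 + N) * (1 + N)) := by rw [hzz, mul_one]
      _ = (ρ z⁻¹ * ρ z) * (1 + N) := by rw [hz, mul_assoc]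
      _ = 1 + N := by rw [rho_inv_mul, one_mul]
  intro x hx
  have h1 := hC z x hx
  rw [hzinv, hz, mul_assoc] at h1
  exact C.add_mem h1 hx

/-- The summand of `End V'` that corresponds to a summand `A` of `End V`. -/
noncomputable def down (N : Module.End k V) (qh : V →ₗ[k] V') (sh : V' →ₗ[k] V)
    (A : Submodule k (Module.End k V)) : Submodule k (Module.End k V') :=
  (A ⊓ LinearMap.ker (Dm (k := k) N)).map (Ph qh sh)

/-- The inductive step. -/
theorem step_data {ρ : Representation k G V} {ρ' : Representation k G V'}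
    {z : G} (hzc : ∀ g, ρ z * ρ g = ρ g * ρ z) (r : Rel N h) (hz : ρ z = 1 + N)
    (H : Hq N qh sh) (hq : ∀ g v, N v = 0 → qh (ρ g v) = ρ' g (qh v))
    {A B : Submodule k (Module.End k V)} (hA : CInv ρ A) (hB : CInv ρ B) (hAB : IsCompl A B) :
    IsCompl (down N qh sh A) (down N qh sh B) ∧ CInv ρ' (down N qh sh A) ∧
      CInv ρ' (down N qh sh B) ∧
      Module.finrank k A = 2 * Module.finrank k (A.map (Dm N))
        + Module.finrank k (down N qh sh A) := by
  have hNc : ∀ g, N * ρ g = ρ g * N := by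
    intro g
    have := hzc g
    rw [hz, mul_add, add_mul, mul_one, one_mul] at this
    exact add_left_cancel this
  have hDA := D_stable r hz hA
  have hDB := D_stable r hz hB
  unfold down
  set D : Module.End k V →ₗ[k] Module.End k V := Dm N with hDdef
  set Φ := Ph qh sh with hΦ
  have hDD : ∀ x, D (D x) = 0 := fun x => (comm_iff r _).2 (N_mul_D r x)
  have hdec : ∀ x : Module.End k V, ∃ a ∈ A, ∃ b ∈ B, a + b = x := fun x => by
    have : x ∈ A ⊔ B := by rw [hAB.sup_eq_top]; trivial
    exact Submodule.mem_sup.1 this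
  have hzero : ∀ x, x ∈ A → x ∈ B → x = 0 := fun x hxA hxB => by
    have : x ∈ A ⊓ B := ⟨hxA, hxB⟩
    rw [hAB.inf_eq_bot] at this
    exact this
  have hkerPh : ∀ x, D x = 0 → Φ x = 0 → ∃ y, x = D y := fun x hx h0 =>
    Ph_ker r H ((comm_iff r x).1 hx) h0
  have hPhD : ∀ x, Φ (D x) = 0 := fun x => Ph_D r H x
  -- kernel of `Φ` on the summands
  have hkerA : ∀ C C' : Submodule k (Module.End k V), (∀ x, x ∈ C → x ∈ C' → x = 0) →
      (∀ x, ∃ a ∈ C, ∃ b ∈ C', a + b = x) → (∀ x ∈ C, D x ∈ C) → (∀ x ∈ C', D x ∈ C') →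
      (C ⊓ LinearMap.ker D) ⊓ LinearMap.ker Φ = C.map D := by
    intro C C' hz0 hdc hC hC'
    ext x
    simp only [Submodule.mem_inf, LinearMap.mem_ker, Submodule.mem_map]
    constructor
    · rintro ⟨⟨hxC, hx⟩, h0⟩
      obtain ⟨y, rfl⟩ := hkerPh x hx h0
      obtain ⟨a, ha, b, hb, rfl⟩ := hdc y
      refine ⟨a, ha, ?_⟩
      have h3 : D b = 0 := by
        apply hz0 _ _ (hC' b hb)
        have h4 : D b = D (a + b) - D a := by rw [map_add]; abel
        rw [h4]
        exact C.sub_mem hxC (hC a ha)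
      rw [map_add, h3, add_zero]
    · rintro ⟨y, hy, rfl⟩
      exact ⟨⟨hC y hy, hDD y⟩, hPhD y⟩
  have e1 := rank_nullity A D
  have e2 := rank_nullity (A ⊓ LinearMap.ker D) Φ
  rw [hkerA A B hzero hdec hDA hDB] at e2
  -- the images are complementary
  have hcompl : IsCompl ((A ⊓ LinearMap.ker D).map Φ) ((B ⊓ LinearMap.ker D).map Φ) := by
    constructor
    · rw [Submodule.disjoint_def]
      rintro _ ⟨a, ⟨haA, haD⟩, rfl⟩ ⟨b, ⟨hbB, hbD⟩, hab⟩
      have h5 : D (a - b) = 0 := by
        rw [map_sub, LinearMap.mem_ker.1 haD, LinearMap.mem_ker.1 hbD, sub_zero]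
      have h6 : Φ (a - b) = 0 := by rw [map_sub, hab, sub_self]
      obtain ⟨y, hy⟩ := hkerPh _ h5 h6
      obtain ⟨a', ha', b', hb', rfl⟩ := hdec y
      have h7 : a = D a' := by
        rw [← sub_eq_zero]
        apply hzero _ (A.sub_mem haA (hDA a' ha'))
        have h8 : a - D a' = b + D b' := by
          rw [map_add] at hy
          rw [sub_eq_iff_eq_add] at hy ⊢
          rw [hy]; abel
        rw [h8]
        exact B.add_mem hbB (hDB b' hb')
      rw [h7, hPhD]
    · rw [codisjoint_iff, eq_top_iff]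
      intro f _
      obtain ⟨x, hx, rfl⟩ := Ph_surj H f
      have hx0 : D x = 0 := (comm_iff r x).2 hx
      obtain ⟨a, ha, b, hb, rfl⟩ := hdec x
      have h9 : D a = 0 := by
        apply hzero _ (hDA a ha)
        have h10 : D a = - D b := by
          rw [map_add] at hx0
          exact eq_neg_of_add_eq_zero_left hx0
        rw [h10]
        exact B.neg_mem (hDB b hb)
      have h11 : D b = 0 := by
        rw [map_add, h9, zero_add] at hx0
        exact hx0
      rw [← hΦ, map_add]
      exact Submodule.add_mem_sup (Submodule.mem_map_of_mem ⟨ha, h9⟩)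
        (Submodule.mem_map_of_mem ⟨hb, h11⟩)
  have hinv : ∀ C : Submodule k (Module.End k V), CInv ρ C →
      CInv ρ' ((C ⊓ LinearMap.ker D).map Φ) := by
    rintro C hC g _ ⟨x, ⟨hxC, hxD⟩, rfl⟩
    have hx := (comm_iff r x).1 hxD
    refine ⟨ρ g * x * ρ g⁻¹, ⟨hC g x hxC, ?_⟩, Ph_equiv H hNc hq hx g⟩
    rw [SetLike.mem_coe, LinearMap.mem_ker]
    refine (comm_iff r _).2 ?_
    calc N * (ρ g * x * ρ g⁻¹) = (N * ρ g) * x * ρ g⁻¹ := by simp only [mul_assoc]
      _ = ρ g * (N * x) * ρ g⁻¹ := by rw [hNc]; simp only [mul_assoc]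
      _ = ρ g * x * (N * ρ g⁻¹) := by rw [hx]; simp only [mul_assoc]
      _ = ρ g * x * ρ g⁻¹ * N := by rw [hNc]; simp only [mul_assoc]
  exact ⟨hcompl, hinv A hA, hinv B hB, by omega⟩

end

end H77CI
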