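import Pool.Agent.Helper77.CI.Alg

/-!
# MP_8096dd_al : direct summands of `End V` and the functor `ker (z-1) / im (z-1)`
-/

open Module LinearMap

namespace H77CI

variable {k V : Type} [Field k] [AddCommGroup V] [Module k V]
variable {G : Type} [Group G]

theorem localEnd_of_indec [FiniteDimensional k V] [IsAlgClosed k] {ρ : Representation k G V}
    (hodd : Odd (Module.finrank k V)) (hρ : Indec ρ) : LocalEnd ρ := by
  intro a ha
  have hnt : Nontrivial V := by
    apply Module.nontrivial_of_finrank_pos (R := k)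
    obtain ⟨n, hn⟩ := hodd
    omega
  obtain ⟨c, hc⟩ := Module.End.exists_eigenvalue a
  refine ⟨c, ?_⟩
  set b := a - c • (1 : Module.End k V) with hb
  have hbc : ∀ g, Commute b (ρ g) := by
    intro g
    have h1 : Commute a (ρ g) := ha g
    have h2 : Commute (c • (1 : Module.End k V)) (ρ g) :=
      (Commute.one_left (ρ g)).smul_left c
    exact h1.sub_left h2
  obtain ⟨n, hn⟩ := Filter.eventually_atTop.mp b.eventually_isCompl_ker_pow_range_pow
  have hn' := hn (n + 1) (Nat.le_succ n)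
  have hA : ∀ g : G, ∀ x ∈ LinearMap.ker (b ^ (n + 1)), ρ g x ∈ LinearMap.ker (b ^ (n + 1)) := by
    intro g x hx
    rw [LinearMap.mem_ker] at hx ⊢
    have := LinearMap.congr_fun ((hbc g).pow_left (n + 1)).eq x
    rw [Module.End.mul_apply, Module.End.mul_apply, hx, map_zero] at this
    exact this
  have hB : ∀ g : G, ∀ x ∈ LinearMap.range (b ^ (n + 1)),
      ρ g x ∈ LinearMap.range (b ^ (n + 1)) := by
    rintro g x ⟨y, rfl⟩
    have := LinearMap.congr_fun ((hbc g).pow_left (n + 1)).eq y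
    exact ⟨ρ g y, this⟩
  rcases hρ _ _ hA hB hn' with h | h
  · exfalso
    obtain ⟨v, hv⟩ := hc.exists_hasEigenvector
    have h1 : b v = 0 := by
      rw [hb, LinearMap.sub_apply, hv.apply_eq_smul]
      simp
    have h2 : v ∈ LinearMap.ker (b ^ (n + 1)) := by
      rw [LinearMap.mem_ker, pow_succ, Module.End.mul_apply, h1, map_zero]
    rw [h, Submodule.mem_bot] at h2
    exact hv.2 h2
  · exact ⟨n + 1, LinearMap.range_eq_bot.1 h⟩

section

variable [FiniteDimensional k V] {N h : Module.End k V}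

/-- The projection onto a summand, as an endomorphism. -/
noncomputable def pr {X : Type} [AddCommGroup X] [Module k X] (A B : Submodule k X)
    (hAB : IsCompl A B) : X →ₗ[k] X := A.subtype ∘ₗ A.projectionOnto B hAB

theorem pr_mem {X : Type} [AddCommGroup X] [Module k X] {A B : Submodule k X}
    (hAB : IsCompl A B) (x : X) : pr A B hAB x ∈ A := (A.projectionOnto B hAB x).2

theorem pr_of_mem {X : Type} [AddCommGroup X] [Module k X] {A B : Submodule k X}
    (hAB : IsCompl A B) {x : X} (hx : x ∈ A) : pr A B hAB x = x := by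
  have := Submodule.projectionOnto_apply_left hAB ⟨x, hx⟩
  simp only [pr, LinearMap.comp_apply, this]
  rfl

theorem pr_of_mem_right {X : Type} [AddCommGroup X] [Module k X] {A B : Submodule k X}
    (hAB : IsCompl A B) {x : X} (hx : x ∈ B) : pr A B hAB x = 0 := by
  have := (Submodule.projectionOnto_apply_eq_zero_iff hAB).2 hx
  simp only [pr, LinearMap.comp_apply, this, map_zero]

theorem pr_comm {X : Type} [AddCommGroup X] [Module k X] {A B : Submodule k X}
    (hAB : IsCompl A B) {T : X →ₗ[k] X} (hA : ∀ x ∈ A, T x ∈ A) (hB : ∀ x ∈ B, T x ∈ B) :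
    pr A B hAB ∘ₗ T = T ∘ₗ pr A B hAB := by
  ext x
  obtain ⟨a, ha, b, hb, rfl⟩ : ∃ a ∈ A, ∃ b ∈ B, a + b = x := by
    have : x ∈ A ⊔ B := by rw [hAB.sup_eq_top]; trivial
    exact Submodule.mem_sup.1 this
  simp only [LinearMap.comp_apply, map_add]
  rw [pr_of_mem hAB (hA a ha), pr_of_mem_right hAB (hB b hb), pr_of_mem hAB ha,
    pr_of_mem_right hAB hb, map_zero]

theorem even_of_isProj {X : Type} [AddCommGroup X] [Module k X] [FiniteDimensional k X]
    [CharP k 2] {A : Submodule k X} {Q : X →ₗ[k] X} (hQ : LinearMap.IsProj A Q)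
    (h0 : LinearMap.trace k X Q = 0) : Even (Module.finrank k A) := by
  have h2 : ((Module.finrank k A : ℕ) : k) = 0 := hQ.trace.symm.trans h0
  rw [CharP.cast_eq_zero_iff k 2] at h2
  exact even_iff_two_dvd.2 h2

/-- Abstract form of the parity argument. -/
theorem even_map {X : Type} [AddCommGroup X] [Module k X] [FiniteDimensional k X]
    [CharP k 2] {A B : Submodule k X} (hAB : IsCompl A B) {D P W : X →ₗ[k] X}
    (hDA : ∀ x ∈ A, D x ∈ A) (hDB : ∀ x ∈ B, D x ∈ B) (hPD : ∀ x, P (D x) = D x)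
    (hDW : ∀ x, P x = D (W x)) (h0 : LinearMap.trace k X (pr A B hAB ∘ₗ P) = 0) :
    Even (Module.finrank k (A.map D)) := by
  have hcomm : ∀ x, pr A B hAB (D x) = D (pr A B hAB x) := fun x =>
    LinearMap.congr_fun (pr_comm hAB hDA hDB) x
  refine even_of_isProj (Q := pr A B hAB ∘ₗ P) ⟨fun x => ?_, ?_⟩ h0
  · rw [LinearMap.comp_apply, hDW, hcomm]
    exact Submodule.mem_map_of_mem (pr_mem hAB _)
  · rintro _ ⟨a, ha, rfl⟩
    rw [LinearMap.comp_apply, hPD, hcomm, pr_of_mem hAB ha]

/-- The rank of `D` on every summand is even. -/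
theorem even_rank {ρ : Representation k G V} (hρ : LocalEnd ρ) [CharP k 2]
    (hodd : Odd (Module.finrank k V)) (r : Rel N h) {z : G}
    (hz : ρ z = 1 + N) (hzc : ∀ g, ρ z * ρ g = ρ g * ρ z)
    {A B : Submodule k (Module.End k V)} (hAB : IsCompl A B)
    (hA : ∀ g : G, ∀ x ∈ A, ρ g * x * ρ g⁻¹ ∈ A) (hB : ∀ g : G, ∀ x ∈ B, ρ g * x * ρ g⁻¹ ∈ B)
    (hDA : ∀ x ∈ A, Dm (k := k) N x ∈ A) (hDB : ∀ x ∈ B, Dm (k := k) N x ∈ B) :
    Even (Module.finrank k (A.map (Dm N))) := by
  refine even_map hAB hDA hDB (P := Pm N h) (W := Wm N h) (fun x => LinearMap.congr_fun (PD r) x)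
    (fun x => (LinearMap.congr_fun (DW r) x).symm) ?_
  refine trace_P_zero hρ hodd r hz hzc _ (fun g => pr_comm hAB ?_ ?_)
  · intro x hx
    rw [LR_apply, ← mul_assoc]
    exact hA g x hx
  · intro x hx
    rw [LR_apply, ← mul_assoc]
    exact hB g x hx

end

end H77CI
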