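import Pool.Agent.Helper77.CI.Tr

/-!
# MP_8096dd_al : towers
-/

open Module LinearMap

namespace H77CI

variable {k V V' : Type} [Field k] [AddCommGroup V] [Module k V] [AddCommGroup V'] [Module k V']
variable {G : Type} [Group G]
variable {N h : Module.End k V} {qh : V →ₗ[k] V'} {sh : V' →ₗ[k] V}

/-- The rank of `D` on every summand is even, under the property `KP`. -/
theorem even_rank' [FiniteDimensional k V] {ρ : Representation k G V} {S : Set G} [CharP k 2]
    (hodd : Odd (Module.finrank k V)) (r : Rel N h) {z : G} (hzS : z ∈ S)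
    (hz : ρ z = 1 + N)
    {A B : Submodule k (Module.End k V)} (hAB : IsCompl A B)
    (hA : CInv ρ A) (hB : CInv ρ B) (hK : KP ρ S (pr A B hAB)) :
    Even (Module.finrank k (A.map (Dm N))) := by
  have hDA := D_stable r hz hA
  have hDB := D_stable r hz hB
  refine even_map hAB hDA hDB (P := Pm N h) (W := Wm N h) (fun x => LinearMap.congr_fun (PD r) x)
    (fun x => (LinearMap.congr_fun (DW r) x).symm) ?_
  have hzz : (1 + N) * (1 + N) = 1 := by
    simp only [mul_add, add_mul, mul_one, one_mul, r.NN, add_zero]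
    rw [add_assoc, r.two, add_zero]
  have hzinv : ρ z⁻¹ = 1 + N := by
    calc ρ z⁻¹ = ρ z⁻¹ * ((1 + N) * (1 + N)) := by rw [hzz, mul_one]
      _ = (ρ z⁻¹ * ρ z) * (1 + N) := by rw [hz, mul_assoc]
      _ = 1 + N := by rw [rho_inv_mul, one_mul]
  refine trace_P_zero' hodd r hzS hz (pr_comm hAB ?_ ?_) hK
  · intro x hx
    rw [LR_apply, ← mul_assoc]
    have := hA z x hx
    rwa [hzinv, hz] at this
  · intro x hx
    rw [LR_apply, ← mul_assoc]
    have := hB z x hx
    rwa [hzinv, hz] at this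

/-- The bracket of the projection is preserved. -/
theorem br_down [FiniteDimensional k V] [FiniteDimensional k V'] [CharP k 2]
    (r : Rel N h) (H : Hq N qh sh)
    {A B : Submodule k (Module.End k V)} (hAB : IsCompl A B)
    (hDA : ∀ x ∈ A, Dm (k := k) N x ∈ A) (hDB : ∀ x ∈ B, Dm (k := k) N x ∈ B)
    (hAB' : IsCompl (down N qh sh A) (down N qh sh B))
    {u v : Module.End k V} (hu : N * u = u * N) (hv : N * v = v * N) :
    br (pr A B hAB) u v
      = br (pr (down N qh sh A) (down N qh sh B) hAB') (Ph qh sh u) (Ph qh sh v) := by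
  have hk : ∀ c : k, c + c = 0 := fun c => CharTwo.add_self_eq_zero c
  have hDD : Dm (k := k) N * Dm (k := k) N = 0 :=
    LinearMap.ext fun x => (comm_iff r _).2 (N_mul_D r x)
  have htwo : ∀ x : Module.End k (Module.End k V), x + x = 0 := by
    intro x
    rw [← two_smul k x, CharTwo.two_eq_zero, zero_smul]
  obtain ⟨hX, qX, sX, rX, HX, hqX⟩ := exists_Hq htwo hDD
    ((Ph qh sh) ∘ₗ (LinearMap.ker (Dm (k := k) N)).subtype)
    (by
      intro f
      obtain ⟨x, hx, rfl⟩ := Ph_surj H f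
      exact ⟨⟨x, (comm_iff r x).2 hx⟩, rfl⟩)
    (by
      intro x
      constructor
      · intro hx
        obtain ⟨y, hy⟩ := Ph_ker r H ((comm_iff r x.1).1 x.2) hx
        exact ⟨y, hy.symm⟩
      · rintro ⟨y, hy⟩
        change Ph qh sh x.1 = 0
        rw [← hy]
        exact Ph_D r H y)
  have hqX' : ∀ x : Module.End k V, Dm (k := k) N x = 0 → qX x = Ph qh sh x := fun x hx =>
    hqX ⟨x, hx⟩
  have hcomm : ∀ x, pr A B hAB (Dm (k := k) N x) = Dm (k := k) N (pr A B hAB x) := fun x =>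
    LinearMap.congr_fun (pr_comm hAB hDA hDB) x
  have hLR : ∀ x, Dm (k := k) N (LR (k := k) u v x) = LR (k := k) u v (Dm (k := k) N x) := by
    intro x
    simp only [Dm, LinearMap.add_apply, LR_apply, LinearMap.id_apply, mul_add, add_mul]
    have e1 : (1 + N) * u = u * (1 + N) := by rw [add_mul, mul_add, one_mul, mul_one, hu]
    have e2 : (1 + N) * v = v * (1 + N) := by rw [add_mul, mul_add, one_mul, mul_one, hv]
    have e3 : (1 + N) * (u * (x * v) * (1 + N)) = u * ((1 + N) * (x * (1 + N)) * v) := by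
      calc (1 + N) * (u * (x * v) * (1 + N)) = ((1 + N) * u) * x * (v * (1 + N)) := by
            simp only [mul_assoc]
        _ = (u * (1 + N)) * x * ((1 + N) * v) := by rw [e1, e2]
        _ = u * ((1 + N) * (x * (1 + N)) * v) := by simp only [mul_assoc]
    simp only [mul_add, add_mul] at e3
    rw [← sub_eq_zero] at e3 ⊢
    rw [← e3]
    abel
  have hψ : Dm (k := k) N * (pr A B hAB ∘ₗ LR u v) = (pr A B hAB ∘ₗ LR u v) * Dm (k := k) N := by
    refine LinearMap.ext fun x => ?_
    change Dm (k := k) N (pr A B hAB (LR (k := k) u v x))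
      = pr A B hAB (LR (k := k) u v (Dm (k := k) N x))
    rw [← hcomm, hLR]
  have h1 := trace_Ph hk rX HX hψ
  rw [br, h1, br]
  congr 1
  refine LinearMap.ext fun f => ?_
  change qX (pr A B hAB (LR (k := k) u v (sX f)))
    = pr (down N qh sh A) (down N qh sh B) hAB' (LR (k := k) (Ph qh sh u) (Ph qh sh v) f)
  have h2 : Dm (k := k) N (sX f) = 0 := HX.Ns f
  have h3 : Ph qh sh (sX f) = f := by
    rw [← hqX' _ h2]
    exact HX.qs f
  have h4 : Dm (k := k) N (LR (k := k) u v (sX f)) = 0 := by rw [hLR, h2, map_zero]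
  have h5 : Dm (k := k) N (pr A B hAB (LR (k := k) u v (sX f))) = 0 := by
    rw [← hcomm, h4, map_zero]
  rw [hqX' _ h5]
  have h6 : LR (k := k) (Ph qh sh u) (Ph qh sh v) f = Ph qh sh (LR (k := k) u v (sX f)) := by
    have c1 := (comm_iff r (sX f)).1 h2
    have c2 : N * (sX f * v) = (sX f * v) * N := by
      rw [← mul_assoc, c1, mul_assoc, hv, mul_assoc]
    rw [LR_apply, LR_apply, Ph_mul H hu c2, Ph_mul H c1 hv, h3]
  rw [h6]
  -- the projection and `Ph`
  obtain ⟨a, ha, b, hb, hab⟩ : ∃ a ∈ A, ∃ b ∈ B, a + b = LR (k := k) u v (sX f) := by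
    have : LR (k := k) u v (sX f) ∈ A ⊔ B := by rw [hAB.sup_eq_top]; trivial
    exact Submodule.mem_sup.1 this
  have h7 : pr A B hAB (LR (k := k) u v (sX f)) = a := by
    rw [← hab, map_add, pr_of_mem hAB ha, pr_of_mem_right hAB hb, add_zero]
  have h8 : Dm (k := k) N a = 0 := by rw [← h7]; exact h5
  have h9 : Dm (k := k) N b = 0 := by
    rw [← hab, map_add, h8, zero_add] at h4
    exact h4
  rw [h7, ← hab, map_add, map_add,
    pr_of_mem hAB' (Submodule.mem_map_of_mem (show a ∈ A ⊓ LinearMap.ker (Dm (k := k) N) from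
      ⟨ha, h8⟩)),
    pr_of_mem_right hAB' (Submodule.mem_map_of_mem (show b ∈ B ⊓ LinearMap.ker (Dm (k := k) N) from
      ⟨hb, h9⟩)), add_zero]

/-- Inheritance of the property `KP`. -/
theorem kp_step [FiniteDimensional k V] [FiniteDimensional k V'] [CharP k 2]
    {ρ : Representation k G V} {ρ' : Representation k G V'} {S : Set G}
    (r : Rel N h) (H : Hq N qh sh) (hNc : ∀ g, N * ρ g = ρ g * N)
    (hq : ∀ g v, N v = 0 → qh (ρ g v) = ρ' g (qh v))
    {A B : Submodule k (Module.End k V)} (hAB : IsCompl A B)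
    (hDA : ∀ x ∈ A, Dm (k := k) N x ∈ A) (hDB : ∀ x ∈ B, Dm (k := k) N x ∈ B)
    (hAB' : IsCompl (down N qh sh A) (down N qh sh B)) {z : G} (hz : ρ z = 1 + N)
    (hK : KP ρ S (pr A B hAB)) : KP ρ' S (pr (down N qh sh A) (down N qh sh B) hAB') := by
  have hk : ∀ c : k, c + c = 0 := fun c => CharTwo.add_self_eq_zero c
  have hPg : ∀ g, Ph qh sh (ρ g) = ρ' g := by
    intro g
    refine LinearMap.ext fun w => ?_
    rw [Ph_apply, hq g _ (H.Ns w), H.qs]
  have hcN : ∀ a : Module.End k V, (∀ g, a * ρ g = ρ g * a) → N * a = a * N := by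
    intro a hac
    have := hac z
    rw [hz, mul_add, add_mul, mul_one, one_mul] at this
    exact (add_left_cancel this).symm
  -- transport of the representing element
  have key : ∀ a : Module.End k V, (∀ g, a * ρ g = ρ g * a) → SN a →
      (∀ g, Ph qh sh a * ρ' g = ρ' g * Ph qh sh a) ∧ SN (Ph qh sh a) ∧
        ∀ u, N * u = u * N → LinearMap.trace k V (a * u)
          = LinearMap.trace k V' (Ph qh sh a * Ph qh sh u) := by
    intro a hac hsn
    have haN := hcN a hac
    refine ⟨fun g => ?_, ?_, fun u hu => ?_⟩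
    · rw [← hPg g, ← Ph_mul H haN (hNc g), ← Ph_mul H (hNc g) haN, hac]
    · obtain ⟨c, hc⟩ := hsn
      refine ⟨c, ?_⟩
      have h1 : N * (a - c • 1) = (a - c • 1) * N := by
        rw [mul_sub, sub_mul, haN]
        simp
      have h2 := Ph_nil H h1 hc
      rw [map_sub, map_smul, Ph_one H] at h2
      exact h2
    · have h1 : N * (a * u) = (a * u) * N := by
        rw [← mul_assoc, haN, mul_assoc, hu, mul_assoc]
      rw [trace_Ph hk r H h1, Ph_mul H haN hu]
  have main : ∀ v : Module.End k V, N * v = v * N → KPv ρ (pr A B hAB) v →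
      KPv ρ' (pr (down N qh sh A) (down N qh sh B) hAB') (Ph qh sh v) := by
    rintro v hv ⟨⟨a, a1, a2, a3⟩, ⟨b, b1, b2, b3⟩⟩
    obtain ⟨a4, a5, a6⟩ := key a a1 a2
    obtain ⟨b4, b5, b6⟩ := key b b1 b2
    refine ⟨⟨Ph qh sh a, a4, a5, fun u' => ?_⟩, ⟨Ph qh sh b, b4, b5, fun u' => ?_⟩⟩
    · obtain ⟨u, hu, rfl⟩ := Ph_surj H u'
      rw [← br_down r H hAB hDA hDB hAB' hu hv, a3, a6 u hu]
    · obtain ⟨u, hu, rfl⟩ := Ph_surj H u'
      rw [← br_down r H hAB hDA hDB hAB' hv hu, b3, b6 u hu]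
  refine ⟨?_, fun w hw => ?_⟩
  · have := main 1 (by rw [mul_one, one_mul]) hK.1
    rwa [Ph_one H] at this
  · have := main (ρ w) (hNc w) (hK.2 w hw)
    rwa [hPg w] at this

end H77CI
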