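import Pool.Agent.Helper77.CI.Tower

/-!
# MP_8096dd_al : the induction along a tower
-/

open Module LinearMap

namespace H77CI

theorem kp_of_indec {k V : Type} [Field k] [IsAlgClosed k] [CharP k 2] [AddCommGroup V]
    [Module k V] [FiniteDimensional k V] {G : Type} [Group G] {ρ : Representation k G V}
    (hodd : Odd (Module.finrank k V)) (hind : Indec ρ) {A B : Submodule k (Module.End k V)}
    (hA : CInv ρ A) (hB : CInv ρ B) (hAB : IsCompl A B) : KP ρ (Cen ρ) (pr A B hAB) := by
  have hloc := localEnd_of_indec hodd hind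
  have hφ : ∀ g, pr A B hAB ∘ₗ LR (ρ g) (ρ g⁻¹) = LR (ρ g) (ρ g⁻¹) ∘ₗ pr A B hAB := by
    intro g
    refine pr_comm hAB ?_ ?_
    · intro x hx
      rw [LR_apply, ← mul_assoc]
      exact hA g x hx
    · intro x hx
      rw [LR_apply, ← mul_assoc]
      exact hB g x hx
  refine ⟨kpv_of_localEnd hloc hφ (fun g => ?_), fun w hw => kpv_of_localEnd hloc hφ (fun g => ?_)⟩
  · rw [mul_one, rho_mul_inv]
  · rw [← hw g, mul_assoc, rho_mul_inv, mul_one]

/-- One step. -/
theorem one_step {k G V V' : Type} [Field k] [CharP k 2] [Group G] [AddCommGroup V] [Module k V]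
    [FiniteDimensional k V] [AddCommGroup V'] [Module k V'] {S : Set G}
    {ρ : Representation k G V} {ρ' : Representation k G V'} (hodd : Odd (Module.finrank k V))
    (hS : S ⊆ Cen ρ) {z : G} (hzS : z ∈ S) (hst : Step ρ z ρ') :
    FiniteDimensional k V' ∧ Odd (Module.finrank k V') ∧ S ⊆ Cen ρ' ∧
      Module.finrank k V
        = 2 * Module.finrank k (LinearMap.range (ρ z - 1)) + Module.finrank k V' ∧
      ∀ (A B : Submodule k (Module.End k V)) (hAB : IsCompl A B), CInv ρ A → CInv ρ B →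
        KP ρ S (pr A B hAB) →
        ∃ (A' B' : Submodule k (Module.End k V')) (hAB' : IsCompl A' B'), CInv ρ' A' ∧
          CInv ρ' B' ∧ KP ρ' S (pr A' B' hAB') ∧
          Module.finrank k A % 4 = Module.finrank k A' % 4 := by
  obtain ⟨hzz, hst⟩ := hst
  change ∃ q : LinearMap.ker (ρ z - 1) →ₗ[k] V', Function.Surjective q ∧
    (∀ x : LinearMap.ker (ρ z - 1), q x = 0 ↔ (x : V) ∈ LinearMap.range (ρ z - 1)) ∧
    (∀ (g : G) (x y : LinearMap.ker (ρ z - 1)), (y : V) = ρ g x → q y = ρ' g (q x)) at hst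
  obtain ⟨q, hq1, hq2, hq3⟩ := hst
  have hzc : ∀ g, ρ z * ρ g = ρ g * ρ z := hS hzS
  have htwo : ∀ x : Module.End k V, x + x = 0 := by
    intro x
    rw [← two_smul k x, CharTwo.two_eq_zero, zero_smul]
  have hfd : FiniteDimensional k V' := Module.Finite.of_surjective q hq1
  have hNN : (ρ z - 1) * (ρ z - 1) = 0 := by
    have : (ρ z - 1) * (ρ z - 1) = (1 - ρ z) + (1 - ρ z) := by
      rw [sub_mul, mul_sub, hzz]
      simp only [mul_one, one_mul]
      abel
    rw [this]
    exact htwo _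
  obtain ⟨h, qh, sh, r, H, hqh⟩ := exists_Hq htwo hNN q hq1 hq2
  have hz : ρ z = 1 + (ρ z - 1) := by abel
  have hNc : ∀ g, (ρ z - 1) * ρ g = ρ g * (ρ z - 1) := by
    intro g
    rw [sub_mul, mul_sub, hzc g, one_mul, mul_one]
  have hNg : ∀ (g : G) v, (ρ z - 1) v = 0 → (ρ z - 1) (ρ g v) = 0 := by
    intro g v hv
    have := LinearMap.congr_fun (hNc g) v
    rw [Module.End.mul_apply, Module.End.mul_apply, hv, map_zero] at this
    exact this
  have hq : ∀ g v, (ρ z - 1) v = 0 → qh (ρ g v) = ρ' g (qh v) := by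
    intro g v hv
    have e1 := hqh ⟨v, hv⟩
    have e2 := hqh ⟨ρ g v, hNg g v hv⟩
    change qh v = _ at e1
    change qh (ρ g v) = _ at e2
    rw [e1, e2]
    exact hq3 g _ _ rfl
  have hPg : ∀ g, Ph qh sh (ρ g) = ρ' g := by
    intro g
    refine LinearMap.ext fun w => ?_
    rw [Ph_apply, hq g _ (H.Ns w), H.qs]
  have hS' : S ⊆ Cen ρ' := by
    intro w hw g
    rw [← hPg w, ← hPg g, ← Ph_mul H (hNc w) (hNc g), ← Ph_mul H (hNc g) (hNc w), hS hw g]
  -- the dimension of `V'`
  have hdim : Module.finrank k V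
      = 2 * Module.finrank k (LinearMap.range (ρ z - 1)) + Module.finrank k V' := by
    have e1 := LinearMap.finrank_range_add_finrank_ker (ρ z - 1)
    have e2 := LinearMap.finrank_range_add_finrank_ker q
    rw [LinearMap.range_eq_top.2 hq1, finrank_top] at e2
    have e3 : Module.finrank k (LinearMap.ker q)
        = Module.finrank k (LinearMap.range (ρ z - 1)) := by
      have e4 : (LinearMap.ker q).map (LinearMap.ker (ρ z - 1)).subtype
          = LinearMap.range (ρ z - 1) := by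
        ext x
        constructor
        · rintro ⟨y, hy, rfl⟩
          exact (hq2 y).1 hy
        · rintro ⟨y, rfl⟩
          have hy : (ρ z - 1) ((ρ z - 1) y) = 0 := LinearMap.congr_fun hNN y
          exact ⟨⟨(ρ z - 1) y, hy⟩, (hq2 ⟨(ρ z - 1) y, hy⟩).2 ⟨y, rfl⟩, rfl⟩
      rw [← e4]
      exact (Submodule.finrank_map_subtype_eq _ _).symm
    omega
  refine ⟨hfd, ?_, hS', hdim, ?_⟩
  · rw [Nat.odd_iff] at hodd ⊢
    omega
  · intro A B hAB hA hB hK
    obtain ⟨c1, c2, c3, c4⟩ := step_data hzc r hz H hq hA hB hAB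
    have hev := even_rank' hodd r hzS hz hAB hA hB hK
    refine ⟨_, _, c1, c2, c3,
      kp_step r H hNc hq hAB (D_stable r hz hA) (D_stable r hz hB) c1 hz hK, ?_⟩
    obtain ⟨m, hm⟩ := hev
    omega

end H77CI
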