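import Pool.Agent.Helper77.CI.Decomp

/-!
# MP_8096dd_al : traces and the functor `ker (z-1) / im (z-1)`
-/

open Module LinearMap

namespace H77CI

variable {k V V' : Type} [Field k] [AddCommGroup V] [Module k V] [AddCommGroup V'] [Module k V']
variable {G : Type} [Group G]
variable {N h : Module.End k V} {qh : V →ₗ[k] V'} {sh : V' →ₗ[k] V}

/-- In characteristic two the trace of a map commuting with `N` is the trace on `ker N / im N`. -/
theorem trace_Ph [FiniteDimensional k V] [FiniteDimensional k V'] (hk : ∀ c : k, c + c = 0)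
    (r : Rel N h) (H : Hq N qh sh)
    {x : Module.End k V} (hx : N * x = x * N) :
    LinearMap.trace k V x = LinearMap.trace k V' (Ph qh sh x) := by
  set ψ : Module.End k V := sh ∘ₗ qh with hψ
  have hNψ : N * ψ = 0 := LinearMap.ext fun v => H.Ns (qh v)
  have hψN : ψ * N = 0 := LinearMap.ext fun v => by
    change sh (qh (N v)) = 0
    rw [H.qN, map_zero]
  set p : Module.End k V := 1 + h * N + N * h with hp
  have hpN : p * N = 0 := by
    simp only [hp, add_mul, mul_assoc, one_mul, r.NN, r.NhN, mul_zero, add_zero]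
    exact r.two N
  have hNp : N * p = 0 := by
    simp only [hp, mul_add, mul_one, r.NhN, r.NN', add_zero]
    exact r.two N
  -- step 1: the trace of `x` is the trace of `x p`
  have e1 : LinearMap.trace k V x = LinearMap.trace k V (x * p) := by
    have a1 : x * p = x + x * h * N + x * N * h := by
      simp only [hp, mul_add, mul_one, mul_assoc]
    have a2 : LinearMap.trace k V (x * h * N) = LinearMap.trace k V (x * N * h) := by
      rw [LinearMap.trace_mul_comm, ← mul_assoc, hx]
    rw [a1, map_add, map_add, a2, add_assoc, hk, add_zero]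
  -- step 2: `trace (x p) = trace (x ψ p)`
  have e2 : LinearMap.trace k V (x * p) = LinearMap.trace k V (x * ψ * p) := by
    have a1 : p = ψ * p + N * (h * (p - ψ * p)) := by
      refine LinearMap.ext fun v => ?_
      obtain ⟨w, hw⟩ := H.ker (p v - ψ (p v))
        (by
          have b1 : N (p v) = 0 := LinearMap.congr_fun hNp v
          have b2 : N (ψ (p v)) = 0 := LinearMap.congr_fun hNψ (p v)
          rw [map_sub, b1, b2, sub_zero])
        (by
          have b3 : qh (ψ (p v)) = qh (p v) := H.qs (qh (p v))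
          rw [map_sub, b3, sub_self])
      have b4 : (N * (h * (p - ψ * p))) v = p v - ψ (p v) := by
        change N (h (p v - ψ (p v))) = p v - ψ (p v)
        rw [hw]
        exact LinearMap.congr_fun r.NhN w
      change p v = ψ (p v) + (N * (h * (p - ψ * p))) v
      rw [b4]
      abel
    have a2 : LinearMap.trace k V (x * (N * (h * (p - ψ * p)))) = 0 := by
      have c1 : x * (N * (h * (p - ψ * p))) = N * (x * (h * (p - ψ * p))) := by
        rw [← mul_assoc, ← hx, mul_assoc]
      have c2 : x * (h * (p - ψ * p)) * N = 0 := by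
        simp only [mul_assoc, sub_mul, hpN, mul_zero, sub_self]
      rw [c1, LinearMap.trace_mul_comm, c2, map_zero]
    calc LinearMap.trace k V (x * p)
        = LinearMap.trace k V (x * (ψ * p) + x * (N * (h * (p - ψ * p)))) := by
          rw [← mul_add, ← a1]
      _ = LinearMap.trace k V (x * ψ * p) := by rw [map_add, a2, add_zero, mul_assoc]
  -- step 3: `trace (x ψ p) = trace (x ψ)`
  have e3 : LinearMap.trace k V (x * ψ * p) = LinearMap.trace k V (x * ψ) := by
    have a1 : x * ψ * p = x * ψ + x * ψ * h * N := by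
      have c1 : ψ * (N * h) = 0 := by rw [← mul_assoc, hψN, zero_mul]
      simp only [hp, mul_add, mul_one, mul_assoc, c1, mul_zero, add_zero]
    have a2 : LinearMap.trace k V (x * ψ * h * N) = 0 := by
      have c1 : N * (x * ψ * h) = 0 := by
        calc N * (x * ψ * h) = (N * x) * ψ * h := by simp only [mul_assoc]
          _ = x * (N * ψ) * h := by rw [hx]; simp only [mul_assoc]
          _ = 0 := by rw [hNψ, mul_zero, zero_mul]
      rw [LinearMap.trace_mul_comm, c1, map_zero]
    rw [a1, map_add, a2, add_zero]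
  rw [e1, e2, e3]
  have e4 := LinearMap.trace_comp_comm' (x ∘ₗ sh) qh
  exact e4.symm

theorem Ph_mul (H : Hq N qh sh) {x y : Module.End k V} (hx : N * x = x * N)
    (hy : N * y = y * N) : Ph qh sh (x * y) = Ph qh sh x * Ph qh sh y := by
  refine LinearMap.ext fun w => ?_
  have h1 : N (y (sh w)) = 0 := by
    have := LinearMap.congr_fun hy (sh w)
    rw [Module.End.mul_apply, Module.End.mul_apply, H.Ns, map_zero] at this
    exact this
  rw [Ph_apply, Module.End.mul_apply, Module.End.mul_apply, Ph_comm H hx h1, Ph_apply qh sh y]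

theorem Ph_one (H : Hq N qh sh) : Ph qh sh (1 : Module.End k V) = 1 :=
  LinearMap.ext fun w => H.qs w

theorem Ph_nil (H : Hq N qh sh) {x : Module.End k V} (hx : N * x = x * N) (hn : IsNilpotent x) :
    IsNilpotent (Ph qh sh x) := by
  have key : ∀ n : ℕ, Ph qh sh (x ^ n) = Ph qh sh x ^ n := by
    intro n
    induction n with
    | zero => rw [pow_zero, pow_zero, Ph_one H]
    | succ n ih =>
      rw [pow_succ, pow_succ, Ph_mul H ((show Commute N x from hx).pow_right n).eq hx, ih]
  obtain ⟨n, hn⟩ := hn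
  exact ⟨n, by rw [← key, hn, map_zero]⟩

/-- A scalar plus a nilpotent. -/
def SN (a : Module.End k V) : Prop := ∃ c : k, IsNilpotent (a - c • 1)

/-- The functionals `⟨·,v⟩` and `⟨v,·⟩` are given by elements commuting with `G` which are scalar
plus nilpotent. -/
def KPv (ρ : Representation k G V) (φ : Module.End k V →ₗ[k] Module.End k V)
    (v : Module.End k V) : Prop :=
  (∃ a : Module.End k V, (∀ g, a * ρ g = ρ g * a) ∧ SN a ∧
    ∀ u, br φ u v = LinearMap.trace k V (a * u)) ∧
  (∃ a : Module.End k V, (∀ g, a * ρ g = ρ g * a) ∧ SN a ∧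
    ∀ u, br φ v u = LinearMap.trace k V (a * u))

/-- The property for all `v` in `{1} ∪ ρ(S)`. -/
def KP (ρ : Representation k G V) (S : Set G)
    (φ : Module.End k V →ₗ[k] Module.End k V) : Prop :=
  KPv ρ φ 1 ∧ ∀ z ∈ S, KPv ρ φ (ρ z)

theorem kpv_of_localEnd [FiniteDimensional k V] {ρ : Representation k G V} (hρ : LocalEnd ρ)
    {φ : Module.End k V →ₗ[k] Module.End k V}
    (hφ : ∀ g, φ ∘ₗ LR (ρ g) (ρ g⁻¹) = LR (ρ g) (ρ g⁻¹) ∘ₗ φ) {v : Module.End k V}
    (hv : ∀ g, ρ g * v * ρ g⁻¹ = v) : KPv ρ φ v := by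
  constructor
  · let f : Module.End k V →ₗ[k] k :=
      { toFun := fun u => br φ u v
        map_add' := fun a b => br_add_left a b v
        map_smul' := fun c a => br_smul_left c a v }
    obtain ⟨a, ha, ha'⟩ := exists_comm_rep ρ f (by
      intro g u
      change br φ (ρ g * u * ρ g⁻¹) v = br φ u v
      have := br_conj (rho_inv_mul ρ g) (hφ g) u v
      rwa [hv g] at this)
    exact ⟨a, ha, hρ a ha, ha'⟩
  · let f : Module.End k V →ₗ[k] k :=
      { toFun := fun u => br φ v u
        map_add' := fun a b => br_add_right v a b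
        map_smul' := fun c a => br_smul_right c v a }
    obtain ⟨a, ha, ha'⟩ := exists_comm_rep ρ f (by
      intro g u
      change br φ v (ρ g * u * ρ g⁻¹) = br φ v u
      have := br_conj (rho_inv_mul ρ g) (hφ g) v u
      rwa [hv g] at this)
    exact ⟨a, ha, hρ a ha, ha'⟩

/-- Values of a functional given by a scalar plus a nilpotent. -/
theorem sn_vals [FiniteDimensional k V] [CharP k 2] (hodd : Odd (Module.finrank k V))
    (r : Rel N h) {a : Module.End k V} (haN : N * a = a * N) (ha : SN a) :
    LinearMap.trace k V (a * (N * h)) = LinearMap.trace k V (a * 1) * LinearMap.trace k V (N * h) ∧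
      LinearMap.trace k V (a * (h * N))
        = LinearMap.trace k V (a * 1) * LinearMap.trace k V (N * h) ∧
      LinearMap.trace k V (a * N) = 0 := by
  obtain ⟨c, hc⟩ := ha
  have hνN : N * (a - c • 1) = (a - c • 1) * N := by
    rw [mul_sub, sub_mul, haN]
    simp
  have hm : ((Module.finrank k V : ℕ) : k) = 1 := by
    obtain ⟨n, hn⟩ := hodd
    rw [hn]
    push_cast
    rw [CharTwo.two_eq_zero, zero_mul, zero_add]
  have htr : ∀ u, LinearMap.trace k V (a * u)
      = c * LinearMap.trace k V u + LinearMap.trace k V ((a - c • 1) * u) := by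
    intro u
    rw [sub_mul, map_sub]
    simp
  have h1 : LinearMap.trace k V (a * 1) = c := by
    rw [htr, LinearMap.trace_one, hm, mul_one, mul_one,
      (LinearMap.isNilpotent_trace_of_isNilpotent hc).eq_zero, add_zero]
  have h2 : LinearMap.trace k V (a * (N * h)) = c * LinearMap.trace k V (N * h) := by
    rw [htr, trace_nil hνN hc r.NhN, add_zero]
  refine ⟨by rw [h1, h2], ?_, ?_⟩
  · rw [h1, ← h2, ← mul_assoc, LinearMap.trace_mul_comm, ← mul_assoc, haN, mul_assoc]
  · have : IsNilpotent (a * N) := by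
      have hN : IsNilpotent N := ⟨2, by rw [pow_two, r.NN]⟩
      exact (show Commute a N from haN.symm).isNilpotent_mul_left hN
    exact (LinearMap.isNilpotent_trace_of_isNilpotent this).eq_zero

/-- **Theorem A** for maps with the property `KP`. -/
theorem trace_P_zero' [FiniteDimensional k V] [CharP k 2] {ρ : Representation k G V} {S : Set G}
    (hodd : Odd (Module.finrank k V)) (r : Rel N h) {z : G} (hzS : z ∈ S)
    (hz : ρ z = 1 + N) {φ : Module.End k V →ₗ[k] Module.End k V}
    (hφ : φ ∘ₗ LR (1 + N) (1 + N) = LR (1 + N) (1 + N) ∘ₗ φ) (hK : KP ρ S φ) :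
    LinearMap.trace k (Module.End k V) (φ ∘ₗ Pm N h) = 0 := by
  have h2 : ∀ c : k, c + c = 0 := fun c => CharTwo.add_self_eq_zero c
  have hcN : ∀ a : Module.End k V, (∀ g, a * ρ g = ρ g * a) → N * a = a * N := by
    intro a hac
    have := hac z
    rw [hz, mul_add, add_mul, mul_one, one_mul] at this
    exact (add_left_cancel this).symm
  obtain ⟨⟨⟨a, a1, a2, a3⟩, ⟨b, b1, b2, b3⟩⟩, hS⟩ := hK
  obtain ⟨-, ⟨c, c1, c2, c3⟩⟩ := hS z hzS
  obtain ⟨v1, -, v3⟩ := sn_vals hodd r (hcN a a1) a2
  obtain ⟨-, w2, -⟩ := sn_vals hodd r (hcN b b1) b2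
  obtain ⟨-, x2, -⟩ := sn_vals hodd r (hcN c c1) c2
  -- the functional `⟨N,·⟩`
  have hNu : ∀ u, br φ N u = LinearMap.trace k V (c * u) + LinearMap.trace k V (b * u) := by
    intro u
    have e1 : N = ρ z + 1 := by
      rw [hz, add_comm, ← add_assoc, r.two, zero_add]
    rw [← c3, ← b3, ← br_add_left, ← e1]
  have e1 : br φ (N * h) 1 = br φ 1 1 * LinearMap.trace k V (N * h) := by
    rw [a3, a3, v1]
  have e2 : br φ 1 (h * N) = br φ 1 1 * LinearMap.trace k V (N * h) := by
    rw [b3, b3, w2]
  have e3 : br φ N (h * N) = br φ N 1 * LinearMap.trace k V (N * h) := by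
    rw [hNu, hNu, w2, x2, add_mul]
  have e4 : br φ N 1 = 0 := by rw [a3, v3]
  rw [trace_P h2 r hφ, e1, e2, e3, e4, zero_mul, add_zero, h2]

end H77CI
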